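import Pool.Agent.TH414.UD.Tau
set_option autoImplicit false

/-! Entropic Balog-Szemeredi-Gowers with all unit dilates, combined with minimality
(Uniform Marton, job 4401). -/

open scoped Classical

namespace Pool.Agent.TH414.UD

open H137.PFR hiding dist
open H137.PFR.BSG
open Pool.Agent.TH404.Tor

variable {Ω γ : Type*} [Fintype Ω] [Fintype γ]
variable {R : Type*} [CommRing R] [Fintype R]
variable {V : Type*} [AddCommGroup V] [Fintype V] [Module R V]
variable {η : ℝ} {μ₀ p₁ p₂ : V → ℝ}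

/-- averages over the units are monotone -/
theorem au_mono_bsg {f g : Rˣ → ℝ} (h : ∀ a, f a ≤ g a) : au R f ≤ au R g := by
  unfold au
  exact div_le_div_of_nonneg_right (Finset.sum_le_sum fun a _ => h a) (Nat.cast_nonneg _)

/-- averages over the units and constants -/
theorem au_add_const_bsg (f : Rˣ → ℝ) (c : ℝ) : au R (fun a => f a + c) = au R f + c := by
  unfold au
  have h : (Fintype.card Rˣ : ℝ) ≠ 0 := Nat.cast_ne_zero.2 Fintype.card_ne_zero
  rw [Finset.sum_add_distrib, Finset.sum_const, Finset.card_univ, nsmul_eq_mul, add_div,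
    mul_div_cancel_left₀ _ h]

theorem H_ww_fst {w : Ω → ℝ} (hw : Law w) {α : Type*} [Fintype α] (C : Ω → α) {δ : Type*} [Fintype δ]
    (f : Ω → δ) : H (ww w C) (fun q => f q.1.1) = H w f := by
  unfold H; rw [push_fst hw.1 C f]

theorem H_ww_snd {w : Ω → ℝ} (hw : Law w) {α : Type*} [Fintype α] (C : Ω → α) {δ : Type*} [Fintype δ]
    (f : Ω → δ) : H (ww w C) (fun q => f q.1.2) = H w f := by
  unfold H; rw [push_snd hw.1 C f]

omit [Fintype R] in
/-- the entropy bound for one coefficient -/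
theorem bsg_one {w : Ω → ℝ} (hw : Law w) (A Z : Ω → V) (S : Ω → γ) (a : R) :
    H (ww w fun ω => (Z ω, S ω)) (fun q => (A q.1.1 + a • A q.1.2, (Z q.1.1, S q.1.1)))
        - H w (fun ω => (Z ω, S ω)) ≤
      2 * H w (fun ω => (A ω, S ω)) + H w (fun ω => (Z ω, S ω))
        + H w (fun ω => (A ω - a • Z ω, S ω)) + H w (fun ω => (A ω + Z ω, S ω))
        - 2 * H w (fun ω => (A ω, Z ω, S ω)) - 3 * H w S := by
  set C : Ω → V × γ := fun ω => (Z ω, S ω) with hC
  have hw' := law_ww hw C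
  have hCC : ∀ q : Pr C, Z q.1.1 = Z q.1.2 ∧ S q.1.1 = S q.1.2 :=
    fun q => Prod.mk.inj q.2
  -- (i)
  have s1 := H_submod hw' (fun q : Pr C => A q.1.1 + a • A q.1.2) (fun q => Z q.1.1)
    (fun q => S q.1.1)
  have s2 : H (ww w C) (fun q => S q.1.1) = H w S := H_ww_fst hw C S
  have s3 : H (ww w C) (fun q => (Z q.1.1, S q.1.1)) = H w C := H_ww_fst hw C C
  rw [s2, s3] at s1
  -- (ii)
  have s4 := H_submod hw' (fun q : Pr C => (A q.1.1, A q.1.2))
    (fun q => (A q.1.1 - a • Z q.1.1, A q.1.2 + Z q.1.1))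
    (fun q => (A q.1.1 + a • A q.1.2, S q.1.1))
  have s5 : H (ww w C) (fun q => ((A q.1.1, A q.1.2),
      (A q.1.1 - a • Z q.1.1, A q.1.2 + Z q.1.1), (A q.1.1 + a • A q.1.2, S q.1.1))) =
      H (ww w C) (fun q => (A q.1.1, A q.1.2, C q.1.1)) := by
    refine H_eq hw' (fun x => (x.1.1, x.1.2, (x.2.1.2 - x.1.2, x.2.2.2)))
      (fun x => ((x.1, x.2.1), (x.1 - a • x.2.2.1, x.2.1 + x.2.2.1), (x.1 + a • x.2.1, x.2.2.2)))
      (fun q => ?_) (fun q => ?_)
    · simp only [hC, Prod.mk.injEq, true_and, and_true]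
      abel
    · simp only [hC]
  have s6 : H (ww w C) (fun q => ((A q.1.1, A q.1.2), (A q.1.1 + a • A q.1.2, S q.1.1))) =
      H (ww w C) (fun q => (A q.1.1, A q.1.2, S q.1.1)) :=
    H_eq hw' (fun x => (x.1.1, x.1.2, x.2.2)) (fun x => ((x.1, x.2.1), (x.1 + a • x.2.1, x.2.2)))
      (fun q => rfl) (fun q => rfl)
  have s7 : H (ww w C) (fun q => ((A q.1.1 - a • Z q.1.1, A q.1.2 + Z q.1.1),
      (A q.1.1 + a • A q.1.2, S q.1.1))) =
      H (ww w C) (fun q => (A q.1.1 - a • Z q.1.1, A q.1.2 + Z q.1.1, S q.1.1)) := by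
    refine H_eq hw' (fun x => (x.1.1, x.1.2, x.2.2))
      (fun x => ((x.1, x.2.1), (x.1 + a • x.2.1, x.2.2))) (fun q => rfl) (fun q => ?_)
    simp only [Prod.mk.injEq, true_and, and_true]
    rw [smul_add]
    abel
  rw [s5, s6, s7] at s4
  -- (iii)
  have s8 := H_submod hw' (fun q : Pr C => A q.1.1) (fun q => A q.1.2) (fun q => S q.1.1)
  have s9 : H (ww w C) (fun q => (A q.1.1, S q.1.1)) = H w (fun ω => (A ω, S ω)) :=
    H_ww_fst hw C fun ω => (A ω, S ω)
  have s10 : H (ww w C) (fun q => (A q.1.2, S q.1.1)) = H w (fun ω => (A ω, S ω)) := by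
    have : (fun q : Pr C => (A q.1.2, S q.1.1)) = fun q => (A q.1.2, S q.1.2) :=
      funext fun q => by rw [(hCC q).2]
    rw [this]
    exact H_ww_snd hw C fun ω => (A ω, S ω)
  rw [s2, s9, s10] at s8
  -- (iv)
  have s11 := H_submod hw' (fun q : Pr C => A q.1.1 - a • Z q.1.1) (fun q => A q.1.2 + Z q.1.1)
    (fun q => S q.1.1)
  have s12 : H (ww w C) (fun q => (A q.1.1 - a • Z q.1.1, S q.1.1)) =
      H w (fun ω => (A ω - a • Z ω, S ω)) := H_ww_fst hw C fun ω => (A ω - a • Z ω, S ω)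
  have s13 : H (ww w C) (fun q => (A q.1.2 + Z q.1.1, S q.1.1)) =
      H w (fun ω => (A ω + Z ω, S ω)) := by
    have : (fun q : Pr C => (A q.1.2 + Z q.1.1, S q.1.1)) =
        fun q => (A q.1.2 + Z q.1.2, S q.1.2) :=
      funext fun q => by rw [(hCC q).1, (hCC q).2]
    rw [this]
    exact H_ww_snd hw C fun ω => (A ω + Z ω, S ω)
  rw [s2, s12, s13] at s11
  -- (v)
  have s14 := H_CI hw' (CI_ww hw.1 C A A)
  have m1 : H (ww w C) (fun q => C q.1.1) = H w C := H_ww_fst hw C C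
  have m2 : H (ww w C) (fun q => (A q.1.1, C q.1.1)) = H w (fun ω => (A ω, C ω)) :=
    H_ww_fst hw C fun ω => (A ω, C ω)
  have m3 : H (ww w C) (fun q => (A q.1.2, C q.1.1)) = H w (fun ω => (A ω, C ω)) := by
    have : (fun q : Pr C => (A q.1.2, C q.1.1)) = fun q => (A q.1.2, C q.1.2) :=
      funext fun q => by rw [q.2]
    rw [this]
    exact H_ww_snd hw C fun ω => (A ω, C ω)
  rw [m1, m2, m3] at s14
  have hAC : H w (fun ω => (A ω, C ω)) = H w (fun ω => (A ω, Z ω, S ω)) := rfl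
  rw [hAC] at s14
  linarith

/-- **Balog-Szemeredi-Gowers with all dilates** -/
theorem bsgA (h0 : Law μ₀) (hη : 0 ≤ η) {t : ℝ}
    (ht : ∀ μ ν : V → ℝ, Law μ → Law ν → t ≤ tauA R η μ₀ μ ν)
    {w : Ω → ℝ} (hw : Law w) (A Z : Ω → V) (S : Ω → γ) :
    t ≤ au R (fun a => 2 * H w (fun ω => (A ω, S ω)) + 2 * H w (fun ω => (Z ω, S ω))
          + H w (fun ω => (A ω - (a : R) • Z ω, S ω)) + H w (fun ω => (A ω + Z ω, S ω))
          - 3 * H w (fun ω => (A ω, Z ω, S ω)) - 3 * H w S)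
      + 2 * η * (H (prod μ₀ w) (fun p => p.1 + A p.2) - ent μ₀ / 2
          - (H w (fun ω => (A ω, Z ω, S ω)) - H w (fun ω => (Z ω, S ω))) / 2) := by
  set C : Ω → V × γ := fun ω => (Z ω, S ω) with hC
  have hw' := law_ww hw C
  have hmain := minimalityA (R := R) h0 ht hw' (fun q => A q.1.1) (fun q => A q.1.2)
    (fun q => C q.1.1) (CI_ww hw.1 C A A)
  -- marginals
  have m1 : H (ww w C) (fun q => C q.1.1) = H w C := H_ww_fst hw C C
  have m2 : H (ww w C) (fun q => (A q.1.1, C q.1.1)) = H w (fun ω => (A ω, C ω)) :=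
    H_ww_fst hw C fun ω => (A ω, C ω)
  have m3 : H (ww w C) (fun q => (A q.1.2, C q.1.1)) = H w (fun ω => (A ω, C ω)) := by
    have : (fun q : Pr C => (A q.1.2, C q.1.1)) = fun q => (A q.1.2, C q.1.2) :=
      funext fun q => by rw [q.2]
    rw [this]
    unfold H; rw [push_snd hw.1 C (fun ω => (A ω, C ω))]
  have hE : ∀ (U : Ω → V) (π : Pr C → Ω) (hπ : ∀ {δ : Type _} (f : Ω → δ),
      push (ww w C) (fun q => f (π q)) = push w f),
      push (prod μ₀ (ww w C)) (fun p : V × Pr C => (p.1 + U (π p.2), C (π p.2))) =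
      push (prod μ₀ w) (fun p : V × Ω => (p.1 + U p.2, C p.2)) := by
    intro U π hπ
    funext a
    have e : ∀ {Θ : Type _} [Fintype Θ] (u : Θ → ℝ) (F : V → Θ → V × (V × γ)),
        push (prod μ₀ u) (fun p : V × Θ => F p.1 p.2) a = ∑ v, μ₀ v * push u (F v) a := by
      intro Θ _ u F
      unfold push prod
      rw [Fintype.sum_prod_type]
      refine Finset.sum_congr rfl fun v _ => ?_
      rw [Finset.mul_sum]
      refine Finset.sum_congr rfl fun o _ => ?_
      split_ifs <;> simp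
    rw [e (ww w C) (fun v q => (v + U (π q), C (π q))), e w (fun v o => (v + U o, C o))]
    refine Finset.sum_congr rfl fun v _ => ?_
    rw [hπ (fun o => (v + U o, C o))]
  have m4 : E0 μ₀ (ww w C) (fun q => A q.1.1) (fun q => C q.1.1) = E0 μ₀ w A C := by
    unfold E0 H
    rw [hE A (fun q => q.1.1) (fun f => push_fst hw.1 C f)]
  have m5 : E0 μ₀ (ww w C) (fun q => A q.1.2) (fun q => C q.1.1) = E0 μ₀ w A C := by
    have : (fun q : Pr C => C q.1.1) = fun q => C q.1.2 := funext fun q => q.2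
    rw [this]
    unfold E0 H
    rw [hE A (fun q => q.1.2) (fun f => push_snd hw.1 C f)]
  rw [m1, m2, m3, m4, m5] at hmain
  -- the average
  have h1 : au R (fun a => H (ww w C) (fun q => (A q.1.1 + (a : R) • A q.1.2, C q.1.1)) - H w C) ≤
      au R (fun a => (2 * H w (fun ω => (A ω, S ω)) + 2 * H w (fun ω => (Z ω, S ω))
          + H w (fun ω => (A ω - (a : R) • Z ω, S ω)) + H w (fun ω => (A ω + Z ω, S ω))
          - 3 * H w (fun ω => (A ω, Z ω, S ω)) - 3 * H w S) +
        (H w (fun ω => (A ω, Z ω, S ω)) - H w (fun ω => (Z ω, S ω)))) := by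
    refine au_mono_bsg fun a => ?_
    have := bsg_one hw A Z S (a : R)
    rw [← hC] at this
    linarith
  rw [au_add_const_bsg] at h1
  have e1 : E0 μ₀ w A C - H w C ≤ H (prod μ₀ w) (fun p => p.1 + A p.2) := by
    have h1 := H_subadd (law_prod h0 hw) (fun p : V × Ω => p.1 + A p.2) (fun p : V × Ω => C p.2)
    rw [H_prod_snd h0 hw C] at h1
    unfold E0
    linarith
  have hAC : H w (fun ω => (A ω, C ω)) = H w (fun ω => (A ω, Z ω, S ω)) := rfl
  rw [hAC] at hmain
  have e2 := mul_le_mul_of_nonneg_left e1 hη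
  linarith

end Pool.Agent.TH414.UD
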