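import Mathlib

/-!
# Arithmetic of concave sequences
-/

set_option autoImplicit false

namespace Pool.Agent.TH414.UD

/-- If a concave sequence starts at `0` with a first difference which is at most `h + G`, and has
mean slope at least `h` on `[0, 2 M]`, then its differences on `[0, M]` are at least `h - G`. -/
theorem conc {F : ℕ → ℝ} {M : ℕ} (hM : 1 ≤ M) {h G : ℝ} (h0 : F 0 = 0)
    (hc : ∀ r, r + 1 < 2 * M → F r + F (r + 2) ≤ 2 * F (r + 1)) (h1 : F 1 ≤ h + G)
    (hl : 2 * M * h ≤ F (2 * M)) :
    (∑ r ∈ Finset.range M, (2 * F (r + 1) - F r - F (r + 2)) ≤ 2 * G) ∧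
      ∀ r, r < M → h - G ≤ F (r + 2) - F (r + 1) := by
  let d : ℕ → ℝ := fun r => F (r + 1) - F r
  have hd : ∀ r, d r = F (r + 1) - F r := fun r => rfl
  have hstep : ∀ r, r + 1 < 2 * M → d (r + 1) ≤ d r := by
    intro r hr
    have := hc r hr
    rw [hd, hd]
    linarith
  have hanti : ∀ s r, r + s < 2 * M → d (r + s) ≤ d r := by
    intro s
    induction s with
    | zero => intro r _; exact le_rfl
    | succ s ih =>
      intro r hr
      have h2 := hstep (r + s) (by omega)
      exact h2.trans (ih r (by omega))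
  have hmono : ∀ r s, r ≤ s → s < 2 * M → d s ≤ d r := by
    intro r s hrs hs
    obtain ⟨t, rfl⟩ := Nat.exists_eq_add_of_le hrs
    exact hanti t r hs
  have hsum : F (2 * M) = ∑ r ∈ Finset.range (2 * M), d r := by
    have h2 : ∑ r ∈ Finset.range (2 * M), d r = F (2 * M) - F 0 :=
      Finset.sum_range_sub F (2 * M)
    rw [h2, h0, sub_zero]
  have hsplit : ∑ r ∈ Finset.range (2 * M), d r ≤ M * d 0 + M * d M := by
    rw [two_mul, Finset.sum_range_add]
    refine add_le_add ?_ ?_
    · refine (Finset.sum_le_card_nsmul _ _ (d 0) fun r hr => ?_).trans (le_of_eq ?_)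
      · exact hmono 0 r (Nat.zero_le _) (by have := Finset.mem_range.1 hr; omega)
      · rw [Finset.card_range, nsmul_eq_mul]
    · refine (Finset.sum_le_card_nsmul _ _ (d M) fun r hr => ?_).trans (le_of_eq ?_)
      · exact hmono M (M + r) (Nat.le_add_right _ _) (by have := Finset.mem_range.1 hr; omega)
      · rw [Finset.card_range, nsmul_eq_mul]
  have hM0 : (0 : ℝ) < M := by exact_mod_cast hM
  have hd0 : d 0 ≤ h + G := by
    rw [hd, h0, sub_zero]
    exact h1
  have hdM : h - G ≤ d M := by
    have h3 : (M : ℝ) * (h - G) ≤ M * d M := by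
      have h4 : (M : ℝ) * d 0 ≤ M * (h + G) := mul_le_mul_of_nonneg_left hd0 hM0.le
      nlinarith
    exact le_of_mul_le_mul_left h3 hM0
  refine ⟨?_, fun r hr => ?_⟩
  · have h5 : ∑ r ∈ Finset.range M, (2 * F (r + 1) - F r - F (r + 2)) = d 0 - d M := by
      have h6 : ∑ r ∈ Finset.range M, (d (r + 1) - d r) = d M - d 0 := Finset.sum_range_sub d M
      have h7 : ∑ r ∈ Finset.range M, (2 * F (r + 1) - F r - F (r + 2)) =
          -∑ r ∈ Finset.range M, (d (r + 1) - d r) := by
        rw [← Finset.sum_neg_distrib]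
        refine Finset.sum_congr rfl fun r _ => ?_
        rw [hd, hd]
        ring
      rw [h7, h6]
      ring
    rw [h5]
    linarith
  · have h8 := hmono (r + 1) M (by omega) (by omega)
    have h9 : d (r + 1) = F (r + 2) - F (r + 1) := rfl
    rw [← h9]
    exact hdM.trans h8

end Pool.Agent.TH414.UD
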