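import Pool.Agent.TH404.Tor.Growth
import Pool.Agent.TH404.Tor.Lin
import Pool.Agent.TH404.Tor.BsgE
set_option autoImplicit false

/-! Entropic Ruzsa distance averaged over the dilates by units: definitions. -/

open scoped Classical

namespace Pool.Agent.TH414.UD

open H137.PFR hiding dist
open Pool.Agent.TH404.Tor

variable (R : Type*) [CommRing R] [Fintype R]
variable {V : Type*} [AddCommGroup V] [Fintype V] [Module R V]

/-- the law of `a X` -/
noncomputable def dil {R V : Type*} [CommRing R] [AddCommGroup V] [Fintype V] [Module R V]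
    (a : R) (μ : V → ℝ) : V → ℝ := push μ (fun x => a • x)

/-- the law of `a X`, bundled -/
noncomputable def dl {R V : Type*} [CommRing R] [AddCommGroup V] [Fintype V] [Module R V]
    (a : R) (μ : PL V) : PL V := PL.map (DistribSMul.toAddMonoidHom V a) μ

/-- average over the units -/
noncomputable def au (f : Rˣ → ℝ) : ℝ := (∑ a : Rˣ, f a) / Fintype.card Rˣ

/-- averaged doubling `E_a (H(X + a Y)) - H(X)/2 - H(Y)/2` -/
noncomputable def DA (μ ν : V → ℝ) : ℝ := au R fun a => D2 μ (dil (a : R) ν)

/-- the functional -/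
noncomputable def tauA (η : ℝ) (μ₀ μ ν : V → ℝ) : ℝ := DA R μ ν + η * (D2 μ₀ μ + D2 μ₀ ν)

/-- data of a minimiser -/
structure MnA (η : ℝ) (μ₀ p₁ p₂ : V → ℝ) : Prop where
  l0 : Law μ₀
  l1 : Law p₁
  l2 : Law p₂
  pos : 0 ≤ η
  min : ∀ μ ν : V → ℝ, Law μ → Law ν → tauA R η μ₀ p₁ p₂ ≤ tauA R η μ₀ μ ν

/-- `∑ c_i X_i`, independent `X_i ~ p`, as a law, the units `c_i` as a list -/
noncomputable def bs {R V : Type*} [CommRing R] [AddCommGroup V] [Fintype V] [Module R V]
    (p : PL V) (l : List Rˣ) : PL V := (l.map fun c => dl (c : R) p).prod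

/-- averaged doubling of bundled laws -/
noncomputable def DL (x y : PL V) : ℝ := au R (fun a => (x * dl (a : R) y).e) - x.e / 2 - y.e / 2

/-- the first `r` rows of the linear map with matrix `g` -/
def rows {n : ℕ} {R V : Type*} [CommRing R] [AddCommGroup V] [Module R V]
    (g : Matrix (Fin n) (Fin n) R) (r : ℕ) (x : Fin n → V) : Fin n → V :=
  fun i => if i.val < r then L (g i) x else 0

/-- average over the invertible matrices -/
noncomputable def ag (n : ℕ) (f : Matrix (Fin n) (Fin n) R → ℝ) : ℝ :=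
  (∑ g : (Matrix (Fin n) (Fin n) R)ˣ, f g.1) / Fintype.card (Matrix (Fin n) (Fin n) R)ˣ

/-- average entropy of the first `r` rows of a random invertible matrix -/
noncomputable def FF (n : ℕ) (p : V → ℝ) (r : ℕ) : ℝ :=
  ag R n fun g => H (pl fun _ : Fin n => p) (rows g r)

/-- every element is a sum of three elements that are zero or a unit -/
def U3 : Prop := ∀ c : R, ∃ u v w : R, (IsUnit u ∨ u = 0) ∧ (IsUnit v ∨ v = 0) ∧
  (IsUnit w ∨ w = 0) ∧ c = u + v + w

end Pool.Agent.TH414.UD
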