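import Pool.Agent.TH414.UD.Zero
import Pool.Agent.TH404.Tor.Final
set_option autoImplicit false

/-! The entropic theorem and the finite case. -/

open scoped Classical Pointwise

namespace Pool.Agent.TH414.UD

open H137.PFR hiding dist
open Pool.Agent.TH404.Tor

variable {R : Type*} [CommRing R] [Fintype R]
variable {V : Type*} [AddCommGroup V] [Fintype V] [Module R V]

theorem law_dil {μ : V → ℝ} (hμ : Law μ) (a : R) : Law (dil a μ) := law_push hμ _

theorem entropicA (hU : U3 R) {μ : V → ℝ} (hμ : Law μ) {k : ℝ} (h1 : DA R μ μ ≤ k)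
    (h2 : D2 μ μ ≤ k) :
    ∃ G : AddSubgroup V, entMod μ G ≤ 2702 * k ∧ Real.log (Nat.card G) - ent μ ≤ 2702 * k := by
  obtain ⟨μ₁, μ₂, h⟩ := exists_minA (R := R) (η := 1 / 2700) (by norm_num) hμ
  have hμ₁ := h.l1
  have hμ₂ := h.l2
  have hd := zeroA hU h
  have hd1 : D2 μ₁ μ₂ = 0 := by
    unfold DA au at hd
    rw [div_eq_zero_iff] at hd
    rcases hd with hd | hd
    · have a0 : ∀ a ∈ (Finset.univ : Finset Rˣ), 0 ≤ D2 μ₁ (dil (a : R) μ₂) := fun a _ =>
        dist_nonneg hμ₁ (law_dil hμ₂ (a : R))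
      have a1 := (Finset.sum_eq_zero_iff_of_nonneg a0).1 hd 1 (Finset.mem_univ _)
      have a2 : dil ((1 : Rˣ) : R) μ₂ = μ₂ := by
        unfold dil
        simp only [Units.val_one, one_smul]
        exact push_id' μ₂
      rwa [a2] at a1
    · exact absurd hd (card_u_pos (R := R)).ne'
  obtain ⟨G, hG1, he1, hG2, he2⟩ := hundred hμ₁ hμ₂ hd1
  refine ⟨G, ?_⟩
  have htau := h.min μ μ hμ hμ
  unfold tauA at htau
  rw [hd] at htau
  have hsum : D2 μ μ₁ + D2 μ μ₂ ≤ 2702 * k := by linarith
  have key : ∀ ν : V → ℝ, Law ν → (∀ h ∈ G, ∀ x, ν (x + h) = ν x) →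
      ent ν = Real.log (Nat.card G) → 2 * D2 μ ν ≤ 2702 * k →
      entMod μ G ≤ 2702 * k ∧ Real.log (Nat.card G) - ent μ ≤ 2702 * k := by
    intro ν hν hinv hent hdist
    have e1 := entMod_add_log_le hμ hν G hinv
    have e2 := ent_le_entMod hμ G
    have e3 : 0 ≤ entMod μ G := H_nonneg hμ _
    have e4 : D2 μ ν = ent (conv μ ν) - ent μ / 2 - ent ν / 2 := rfl
    rw [hent] at e4
    constructor <;> linarith
  rcases le_total (D2 μ μ₁) (D2 μ μ₂) with h | h
  · exact key μ₁ hμ₁ hG1 he1 (by linarith)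
  · exact key μ₂ hμ₂ hG2 he2 (by linarith)

theorem dil_unif (a : Rˣ) (A : Finset V) :
    dil (a : R) (unif A) = unif (A.image fun x => (a : R) • x) := by
  funext y
  unfold dil push
  rw [Finset.sum_eq_single (((a⁻¹ : Rˣ) : R) • y)]
  · have hy : (a : R) • ((a⁻¹ : Rˣ) : R) • y = y := by
      rw [smul_smul, Units.mul_inv, one_smul]
    simp only [hy, if_true]
    have hinj : Function.Injective (fun x : V => (a : R) • x) := by
      intro x z hxz
      have := congrArg (fun t => ((a⁻¹ : Rˣ) : R) • t) hxz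
      simpa [smul_smul] using this
    unfold unif
    rw [Finset.card_image_of_injective _ hinj]
    by_cases h : ((a⁻¹ : Rˣ) : R) • y ∈ A
    · rw [if_pos h, if_pos]
      exact Finset.mem_image.2 ⟨_, h, hy⟩
    · rw [if_neg h, if_neg]
      intro hc
      obtain ⟨x, hx, hxy⟩ := Finset.mem_image.1 hc
      apply h
      rw [← hxy, smul_smul, Units.inv_mul, one_smul]
      exact hx
  · intro x _ hx
    rw [if_neg]
    intro hc
    apply hx
    simp only [← hc, smul_smul, Units.inv_mul, one_smul]
  · intro h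
    exact absurd (Finset.mem_univ _) h

theorem D2_unif {A B : Finset V} (hA : A.Nonempty) (hB : B.Nonempty) (hAB : A.card = B.card)
    {K : ℝ} (hK0 : 0 < K) (hK : ((A + B).card : ℝ) ≤ K * A.card) :
    D2 (unif A) (unif B) ≤ Real.log K := by
  have hpos : (0 : ℝ) < A.card := by exact_mod_cast hA.card_pos
  have hlA := law_unif hA
  have hlB := law_unif hB
  have h1 := ent_le_log_card (law_conv hlA hlB) (A + B) (fun x hx => by
    rw [wrap_conv_apply]
    refine Finset.sum_eq_zero fun y _ => ?_
    unfold unif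
    by_cases h1 : y ∈ A
    · by_cases h2 : x - y ∈ B
      · exfalso
        apply hx
        have := Finset.add_mem_add h1 h2
        rwa [add_sub_cancel] at this
      · simp [h2]
    · simp [h1])
  have h2 : Real.log ((A + B).card) ≤ Real.log K + Real.log A.card := by
    rw [← Real.log_mul hK0.ne' hpos.ne']
    apply Real.log_le_log _ hK
    have : (A + B).Nonempty := hA.add hB
    exact_mod_cast this.card_pos
  unfold D2
  rw [ent_unif hA, ent_unif hB, ← hAB]
  linarith

theorem finite_caseA (hU : U3 R) (K : ℝ) (A : Finset V) (hA : A.Nonempty)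
    (hK : ∀ a : R, ((A + A.image fun x => a • x).card : ℝ) ≤ K * (A.card : ℝ)) :
    ∃ G : AddSubgroup V, (Nat.card G : ℝ) ≤ K ^ 2702 * A.card ∧
      ∃ c : V ⧸ G, (A.card : ℝ) ≤ K ^ 2702 *
        (A.filter (fun x => (QuotientAddGroup.mk x : V ⧸ G) = c)).card := by
  have hpos : (0 : ℝ) < A.card := by exact_mod_cast hA.card_pos
  have hK1 : 1 ≤ K := by
    have h1 : (A.card : ℝ) ≤ (A + A.image fun x => (0 : R) • x).card := by
      exact_mod_cast Finset.card_le_card_add_right (hA.image _)
    have h2 := hK 0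
    nlinarith
  have hK0 : 0 < K := by linarith
  have hlaw := law_unif hA
  have hent := ent_unif hA
  have hinj : ∀ a : Rˣ, Function.Injective (fun x : V => (a : R) • x) := by
    intro a x z hxz
    have := congrArg (fun t => ((a⁻¹ : Rˣ) : R) • t) hxz
    simpa [smul_smul] using this
  have hd : ∀ a : Rˣ, D2 (unif A) (dil (a : R) (unif A)) ≤ Real.log K := by
    intro a
    rw [dil_unif]
    exact D2_unif hA (hA.image _) (Finset.card_image_of_injective _ (hinj a)).symm hK0 (hK a)
  have h1 : DA R (unif A) (unif A) ≤ Real.log K := by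
    have a1 : DA R (unif A) (unif A) ≤ au R fun _ => Real.log K := by
      unfold DA au
      exact div_le_div_of_nonneg_right (Finset.sum_le_sum fun a _ => hd a) card_u_pos.le
    rwa [auc_const] at a1
  have h2 : D2 (unif A) (unif A) ≤ Real.log K := by
    have a1 := hd 1
    have a2 : dil ((1 : Rˣ) : R) (unif A) = unif A := by
      unfold dil
      simp only [Units.val_one, one_smul]
      exact push_id' _
    rwa [a2] at a1
  obtain ⟨G, hG1, hG2⟩ := entropicA hU hlaw h1 h2
  have hGpos : (0 : ℝ) < Nat.card G := by exact_mod_cast Nat.card_pos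
  have hpow : Real.log (K ^ 2702) = 2702 * Real.log K := by
    rw [Real.log_pow]; push_cast; ring
  refine ⟨G, ?_, ?_⟩
  · have h1 : Real.log (Nat.card G) ≤ Real.log (K ^ 2702 * A.card) := by
      rw [Real.log_mul (by positivity) hpos.ne', hpow]
      rw [hent] at hG2
      linarith
    exact (Real.log_le_log_iff hGpos (by positivity)).1 h1
  · obtain ⟨c, hc⟩ := exists_exp_le (law_push hlaw
      (fun x : V => (QuotientAddGroup.mk x : V ⧸ G)))
    refine ⟨c, ?_⟩
    set A' := A.filter (fun x => (QuotientAddGroup.mk x : V ⧸ G) = c) with hA'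
    have hpush : push (unif A) (fun x : V => (QuotientAddGroup.mk x : V ⧸ G)) c =
        A'.card / A.card := by
      unfold push unif
      rw [hA', Finset.card_filter]
      push_cast
      rw [Finset.sum_div, ← Finset.sum_subset (Finset.subset_univ A)]
      · refine Finset.sum_congr rfl fun x hx => ?_
        rw [if_pos hx]
        split_ifs <;> simp [div_eq_mul_inv]
      · intro x _ hx
        rw [if_neg hx, ite_self]
    have h1 : Real.exp (-(2702 * Real.log K)) ≤ A'.card / A.card := by
      rw [← hpush]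
      refine le_trans (Real.exp_le_exp.2 (neg_le_neg hG1)) hc
    rw [Real.exp_neg, ← hpow, Real.exp_log (by positivity), le_div_iff₀ hpos,
      inv_mul_le_iff₀ (by positivity)] at h1
    exact h1

theorem finite_caseA' [d : DecidableEq V] (hU : U3 R) (K : ℝ) (A : Finset V) (hA : A.Nonempty)
    (hK : ∀ a : R, ((A + A.image fun x => a • x).card : ℝ) ≤ K * (A.card : ℝ)) :
    ∃ (G : AddSubgroup V) (D : Finset V), (Nat.card G : ℝ) ≤ K ^ 2702 * A.card ∧
      D ⊆ A ∧ (A.card : ℝ) ≤ K ^ 2702 * D.card ∧ ∀ x ∈ D, ∀ y ∈ D, x - y ∈ G := by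
  have hd : d = (fun a b => Classical.propDecidable (a = b)) := Subsingleton.elim _ _
  subst hd
  obtain ⟨G, h1, c, h2⟩ := finite_caseA hU K A hA hK
  refine ⟨G, _, h1, Finset.filter_subset _ _, h2, fun x hx y hy => ?_⟩
  have hx' := (Finset.mem_filter.1 hx).2
  have hy' := (Finset.mem_filter.1 hy).2
  rw [← hy', eq_comm, QuotientAddGroup.eq] at hx'
  have h2 : -y + x = x - y := by abel
  rwa [h2] at hx'

end Pool.Agent.TH414.UD
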