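import Pool.Agent.TH414.UD.Defs
set_option autoImplicit false

/-! Rows of a random invertible matrix applied to independent variables. -/

open scoped Classical

namespace Pool.Agent.TH414.UD

open H137.PFR hiding dist
open Pool.Agent.TH404.Tor

variable {Ω γ : Type*} [Fintype Ω] [Fintype γ]
variable {R : Type*} [CommRing R] [Fintype R]
variable {V : Type*} [AddCommGroup V] [Fintype V] [Module R V]
variable {η : ℝ} {μ₀ p₁ p₂ : V → ℝ}

theorem H_rows_succ {n : ℕ} {p : V → ℝ} (hp : Law p) (g : Matrix (Fin n) (Fin n) R) (r : ℕ)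
    (hr : r < n) : H (pl fun _ : Fin n => p) (fun x => (L (g ⟨r, hr⟩) x, rows g r x)) =
      H (pl fun _ : Fin n => p) (rows g (r + 1)) := by
  have hw : Law (pl fun _ : Fin n => p) := law_pl fun _ => hp
  refine H_eq hw (fun q i => if i.val = r then q.1 else q.2 i)
    (fun y => (y ⟨r, hr⟩, fun i => if i.val < r then y i else 0)) ?_ ?_
  · intro x
    funext i
    unfold rows
    by_cases h1 : i.val = r
    · have h2 : i = ⟨r, hr⟩ := Fin.ext h1
      subst h2
      simp
    · by_cases h2 : i.val < r
      · simp [h1, h2, Nat.lt_succ_of_lt h2]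
      · have h3 : ¬ i.val < r + 1 := by omega
        simp [h1, h2, h3]
  · intro x
    unfold rows
    refine Prod.ext ?_ ?_
    · simp
    · funext i
      by_cases h2 : i.val < r
      · simp [h2, Nat.lt_succ_of_lt h2]
      · simp [h2]

theorem H_rows_succ2 {n : ℕ} {p : V → ℝ} (hp : Law p) (g : Matrix (Fin n) (Fin n) R) (r : ℕ)
    (hr : r + 1 < n) : H (pl fun _ : Fin n => p)
      (fun x => (L (g ⟨r, by omega⟩) x, L (g ⟨r + 1, hr⟩) x, rows g r x)) =
      H (pl fun _ : Fin n => p) (rows g (r + 2)) := by
  have hw : Law (pl fun _ : Fin n => p) := law_pl fun _ => hp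
  refine H_eq hw (fun q i => if i.val = r then q.1 else if i.val = r + 1 then q.2.1 else q.2.2 i)
    (fun y => (y ⟨r, by omega⟩, y ⟨r + 1, hr⟩, fun i => if i.val < r then y i else 0)) ?_ ?_
  · intro x
    funext i
    unfold rows
    by_cases h1 : i.val = r
    · have h2 : i = ⟨r, by omega⟩ := Fin.ext h1
      rw [h2]
      simp
    · by_cases h0 : i.val = r + 1
      · have h2 : i = ⟨r + 1, hr⟩ := Fin.ext h0
        rw [h2]
        simp
      · by_cases h2 : i.val < r
        · have h3 : i.val < r + 2 := by omega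
          simp [h1, h0, h2, h3]
        · have h3 : ¬ i.val < r + 2 := by omega
          simp [h1, h0, h2, h3]
  · intro x
    unfold rows
    refine Prod.ext ?_ (Prod.ext ?_ ?_)
    · simp
    · simp
    · funext i
      by_cases h2 : i.val < r
      · have h3 : i.val < r + 2 := by omega
        simp [h2, h3]
      · simp [h2]

theorem ag_mul {n : ℕ} (e : (Matrix (Fin n) (Fin n) R)ˣ) (f : Matrix (Fin n) (Fin n) R → ℝ) :
    ag R n (fun g => f (e.1 * g)) = ag R n f := by
  unfold ag
  congr 1
  exact Equiv.sum_comp (Equiv.mulLeft e) (fun g : (Matrix (Fin n) (Fin n) R)ˣ => f g.1)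

theorem ag_congr {n : ℕ} {f f' : Matrix (Fin n) (Fin n) R → ℝ} (h : ∀ g, f g = f' g) :
    ag R n f = ag R n f' := by
  have : f = f' := funext h
  rw [this]

theorem ag_const {n : ℕ} (c : ℝ) : ag R n (fun _ => c) = c := by
  unfold ag
  rw [Finset.sum_const, Finset.card_univ, nsmul_eq_mul]
  have : (0 : ℝ) < Fintype.card (Matrix (Fin n) (Fin n) R)ˣ := by
    exact_mod_cast Fintype.card_pos
  field_simp

/-- the transvection as a unit -/
noncomputable def tv {n : ℕ} (i j : Fin n) (h : i ≠ j) (c : R) : (Matrix (Fin n) (Fin n) R)ˣ where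
  val := Matrix.transvection i j c
  inv := Matrix.transvection i j (-c)
  val_inv := by
    rw [Matrix.transvection_mul_transvection_same _ _ h, add_neg_cancel, Matrix.transvection_zero]
  inv_val := by
    rw [Matrix.transvection_mul_transvection_same _ _ h, neg_add_cancel, Matrix.transvection_zero]

/-- the matrix of a transposition as a unit -/
noncomputable def sw {n : ℕ} (i j : Fin n) : (Matrix (Fin n) (Fin n) R)ˣ where
  val := (Equiv.swap i j).permMatrix R
  inv := (Equiv.swap i j).permMatrix R
  val_inv := by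
    rw [← Matrix.permMatrix_mul, Equiv.swap_mul_self, Matrix.permMatrix_one]
  inv_val := by
    rw [← Matrix.permMatrix_mul, Equiv.swap_mul_self, Matrix.permMatrix_one]

/-- average over `g` of the four members of the pencil -/
theorem FF_pencil {n : ℕ} {p : V → ℝ} (hp : Law p) (r : ℕ) (hr : r + 1 < n) (a : R) :
    (ag R n fun g => H (pl fun _ : Fin n => p) (fun x => (L (g ⟨r + 1, hr⟩) x, rows g r x))) =
      FF R n p (r + 1) ∧
    (ag R n fun g => H (pl fun _ : Fin n => p) (fun x =>
      (L (g ⟨r, by omega⟩) x + a • L (g ⟨r + 1, hr⟩) x, rows g r x))) = FF R n p (r + 1) ∧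
    (ag R n fun g => H (pl fun _ : Fin n => p) (fun x =>
      (L (g ⟨r, by omega⟩) x, L (g ⟨r + 1, hr⟩) x, rows g r x))) = FF R n p (r + 2) := by
  have hr' : r < n := by omega
  have hne : (⟨r, hr'⟩ : Fin n) ≠ ⟨r + 1, hr⟩ := by
    intro h
    have := congrArg Fin.val h
    simp at this
  have hF : FF R n p (r + 1) = ag R n (fun g => H (pl fun _ : Fin n => p)
      (fun x => (L (g ⟨r, hr'⟩) x, rows g r x))) := by
    unfold FF
    exact ag_congr fun g => (H_rows_succ hp g r hr').symm
  refine ⟨?_, ?_, ?_⟩
  · rw [hF]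
    refine Eq.trans (ag_congr fun g => ?_) (ag_mul (sw (⟨r, hr'⟩ : Fin n) ⟨r + 1, hr⟩) _)
    have e1 : ∀ i, ((sw (⟨r, hr'⟩ : Fin n) ⟨r + 1, hr⟩ : (Matrix (Fin n) (Fin n) R)ˣ).1 * g) i =
        g (Equiv.swap (⟨r, hr'⟩ : Fin n) ⟨r + 1, hr⟩ i) := by
      intro i
      have : (sw (⟨r, hr'⟩ : Fin n) ⟨r + 1, hr⟩ : (Matrix (Fin n) (Fin n) R)ˣ).1 * g =
          g.submatrix (Equiv.swap (⟨r, hr'⟩ : Fin n) ⟨r + 1, hr⟩) id :=
        PEquiv.toMatrix_toPEquiv_mul _ _
      rw [this]
      rfl
    congr 1
    funext x
    refine Prod.ext ?_ ?_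
    · have e2 := e1 ⟨r, hr'⟩
      rw [Equiv.swap_apply_left] at e2
      simp only
      rw [e2]
    · funext i
      unfold rows
      by_cases h2 : i.val < r
      · have h3 : i ≠ ⟨r, hr'⟩ := by
          intro h; rw [h] at h2; simp at h2
        have h4 : i ≠ ⟨r + 1, hr⟩ := by
          intro h; rw [h] at h2; simp at h2
        have e2 := e1 i
        rw [Equiv.swap_apply_of_ne_of_ne h3 h4] at e2
        simp only [h2, if_true]
        rw [e2]
      · simp only [h2, if_false]
  · rw [hF]
    refine Eq.trans (ag_congr fun g => ?_)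
      (ag_mul (tv (⟨r, hr'⟩ : Fin n) ⟨r + 1, hr⟩ hne a) _)
    congr 1
    funext x
    refine Prod.ext ?_ ?_
    · have e2 : ((tv (⟨r, hr'⟩ : Fin n) ⟨r + 1, hr⟩ hne a).1 * g) ⟨r, hr'⟩ =
          g ⟨r, hr'⟩ + a • g ⟨r + 1, hr⟩ := by
        funext b
        exact Matrix.transvection_mul_apply_same _ _ _ _ _
      have e3 : L (a • g ⟨r + 1, hr⟩) x = a • L (g ⟨r + 1, hr⟩) x := by
        unfold L
        rw [Finset.smul_sum]
        exact Finset.sum_congr rfl fun i _ => by rw [Pi.smul_apply, smul_eq_mul, mul_smul]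
      simp only
      rw [e2, L_add, e3]
    · funext i
      unfold rows
      by_cases h2 : i.val < r
      · have h3 : i ≠ ⟨r, hr'⟩ := by
          intro h; rw [h] at h2; simp at h2
        have e2 : ((tv (⟨r, hr'⟩ : Fin n) ⟨r + 1, hr⟩ hne a).1 * g) i = g i := by
          funext b
          exact Matrix.transvection_mul_apply_of_ne _ _ _ _ h3 _ _
        simp only [h2, if_true]
        rw [e2]
      · simp only [h2, if_false]
  · unfold FF
    exact ag_congr fun g => H_rows_succ2 hp g r hr

theorem H_const {α β : Type*} [Fintype α] [Fintype β] {w : α → ℝ} (hw : Law w) (c : β) :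
    H w (fun _ => c) = 0 := by
  rw [← H_unit hw]
  exact H_eq hw (fun _ => ()) (fun _ => c) (fun _ => rfl) (fun _ => rfl)

theorem FF_zero {n : ℕ} {p : V → ℝ} (hp : Law p) : FF R n p 0 = 0 := by
  have hw : Law (pl fun _ : Fin n => p) := law_pl fun _ => hp
  unfold FF
  have e1 : ∀ g : Matrix (Fin n) (Fin n) R, H (pl fun _ : Fin n => p) (rows g 0) = 0 := by
    intro g
    have e2 : (rows g 0 : (Fin n → V) → (Fin n → V)) = fun _ => 0 := by
      funext x i
      simp [rows]
    rw [e2]
    exact H_const hw 0
  rw [ag_congr e1]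
  exact ag_const 0

omit [Module R V] [Fintype R] [CommRing R] in
theorem H_restr {n : ℕ} {p : V → ℝ} (hp : Law p) (s : Finset (Fin n)) :
    H (pl fun _ : Fin n => p) (fun x i => if i ∈ s then x i else 0) = s.card * ent p := by
  have hw : Law (pl fun _ : Fin n => p) := law_pl fun _ => hp
  induction s using Finset.induction_on with
  | empty =>
    simp only [Finset.notMem_empty, if_false, Finset.card_empty, Nat.cast_zero, zero_mul]
    exact H_const hw _
  | insert j s hj ih =>
    have e1 : H (pl fun _ : Fin n => p) (fun x i => if i ∈ insert j s then x i else 0) =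
        H (pl fun _ : Fin n => p) (fun x => (x j, fun i => if i ∈ s then x i else 0)) := by
      refine H_eq hw (fun y => (y j, fun i => if i ∈ s then y i else 0))
        (fun q i => if i = j then q.1 else q.2 i) ?_ ?_
      · intro x
        refine Prod.ext ?_ ?_
        · simp
        · funext i
          by_cases h : i ∈ s
          · simp [h]
          · simp [h]
      · intro x
        funext i
        by_cases h : i = j
        · subst h; simp
        · simp [h]
    have e2 : Ind (pl fun _ : Fin n => p) (fun x : Fin n → V => x j)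
        (fun x => fun i => if i ∈ s then x i else 0) := by
      refine ind_pl (fun _ => hp) {j} _ _ ?_ ?_
      · intro x y hxy
        exact hxy j rfl
      · intro x y hxy
        funext i
        by_cases h : i ∈ s
        · simp only [h, if_true]
          refine hxy i ?_
          intro hc
          have : i = j := hc
          rw [this] at h
          exact hj h
        · simp only [h, if_false]
    rw [e1, e2.H hw, ih, Finset.card_insert_of_notMem hj]
    have e3 : H (pl fun _ : Fin n => p) (fun x : Fin n → V => x j) = ent p := by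
      unfold H
      rw [push_coord (fun _ => hp)]
    rw [e3]
    push_cast
    ring

theorem FF_last {n : ℕ} {p : V → ℝ} (hp : Law p) : FF R n p n = n * ent p := by
  have hw : Law (pl fun _ : Fin n => p) := law_pl fun _ => hp
  unfold FF ag
  have e1 : ∀ g : (Matrix (Fin n) (Fin n) R)ˣ,
      H (pl fun _ : Fin n => p) (rows g.1 n) = n * ent p := by
    intro g
    have e2 := H_restr (n := n) hp Finset.univ
    rw [Finset.card_univ, Fintype.card_fin] at e2
    rw [← e2]
    have hcomp : ∀ (a b : Matrix (Fin n) (Fin n) R) (x : Fin n → V) (i : Fin n),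
        L (a i) (fun j => L (b j) x) = L ((a * b) i) x := by
      intro a b x i
      unfold L
      simp only [Finset.smul_sum, smul_smul, Matrix.mul_apply, Finset.sum_smul]
      rw [Finset.sum_comm]
    have hone : ∀ (x : Fin n → V) (i : Fin n), L ((1 : Matrix (Fin n) (Fin n) R) i) x = x i := by
      intro x i
      unfold L
      rw [Finset.sum_eq_single i]
      · rw [Matrix.one_apply_eq, one_smul]
      · intro j _ hj
        rw [Matrix.one_apply_ne hj.symm, zero_smul]
      · intro h
        exact absurd (Finset.mem_univ _) h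
    refine H_eq hw (fun y i => L (g⁻¹.1 i) y) (fun y i => L (g.1 i) y) ?_ ?_
    · intro x
      funext i
      have e3 : rows g.1 n x = fun j => L (g.1 j) x := by
        funext j
        simp [rows]
      rw [e3, hcomp]
      have e4 : g⁻¹.1 * g.1 = 1 := Units.inv_mul g
      rw [e4, hone]
      simp
    · intro x
      funext i
      simp [rows]
  rw [Finset.sum_congr rfl fun g _ => e1 g, Finset.sum_const, Finset.card_univ, nsmul_eq_mul]
  have : (0 : ℝ) < Fintype.card (Matrix (Fin n) (Fin n) R)ˣ := by
    exact_mod_cast Fintype.card_pos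
  field_simp

theorem ag_mono {n : ℕ} {f f' : Matrix (Fin n) (Fin n) R → ℝ} (h : ∀ g, f g ≤ f' g) :
    ag R n f ≤ ag R n f' := by
  unfold ag
  exact div_le_div_of_nonneg_right (Finset.sum_le_sum fun g _ => h g.1) (Nat.cast_nonneg _)

theorem ag_add {n : ℕ} (f f' : Matrix (Fin n) (Fin n) R → ℝ) :
    ag R n (fun g => f g + f' g) = ag R n f + ag R n f' := by
  unfold ag
  rw [Finset.sum_add_distrib, add_div]

theorem FF_concave {n : ℕ} {p : V → ℝ} (hp : Law p) (r : ℕ) (hr : r + 1 < n) :
    FF R n p r + FF R n p (r + 2) ≤ 2 * FF R n p (r + 1) := by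
  have hw : Law (pl fun _ : Fin n => p) := law_pl fun _ => hp
  obtain ⟨h1, h2, h3⟩ := FF_pencil (R := R) hp r hr 0
  have h4 : FF R n p r = ag R n fun g => H (pl fun _ : Fin n => p) (rows g r) := rfl
  have h5 := ag_mono (R := R) (n := n) fun g => H_submod hw
    (fun x : Fin n → V => L (g ⟨r, by omega⟩) x + (0 : R) • L (g ⟨r + 1, hr⟩) x)
    (fun x => L (g ⟨r + 1, hr⟩) x) (rows g r)
  rw [ag_add, ag_add, h1, h2] at h5
  simp only [zero_smul, add_zero] at h5
  rw [h3, ← h4] at h5
  linarith

end Pool.Agent.TH414.UD
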