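import Pool.Agent.TH414.UD.Ent
import Pool.Agent.TH414.Dil.Final
set_option autoImplicit false

/-! Sets with small sums of dilates in arbitrary abelian groups. -/

open scoped Classical Pointwise

namespace Pool.Agent.TH414.UD

open Pool.Agent.TH414.Dil

variable {Γ : Type*} [AddCommGroup Γ]

/-- sets in a finite subgroup -/
theorem in_subgroup (U : AddSubgroup Γ) [Finite U] (K : ℝ) (B : Finset Γ) (hB : B.Nonempty)
    (hBU : ∀ b ∈ B, b ∈ U)
    (hK : ∀ n : ℕ, ((B + B.image fun x => n • x).card : ℝ) ≤ K * (B.card : ℝ)) :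
    ∃ (G : AddSubgroup Γ) (D : Finset Γ), Finite G ∧ (Nat.card G : ℝ) ≤ K ^ 2702 * B.card ∧
      D ⊆ B ∧ (B.card : ℝ) ≤ K ^ 2702 * D.card ∧ ∀ x ∈ D, ∀ y ∈ D, x - y ∈ G := by
  have hft : Fintype U := Fintype.ofFinite U
  set m := Nat.card U with hm
  have hm0 : 0 < m := Nat.card_pos
  have : NeZero m := ⟨hm0.ne'⟩
  let _ : Module (ZMod m) U := AddCommGroup.zmodModule (fun x => by
    rw [hm]; exact card_nsmul_eq_zero')
  set A₁ : Finset U := B.preimage (fun v : U => (v : Γ)) Subtype.val_injective.injOn with hA₁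
  have himg : A₁.image (fun v : U => (v : Γ)) = B := by
    ext a
    simp only [hA₁, Finset.mem_image, Finset.mem_preimage]
    constructor
    · rintro ⟨v, hv, rfl⟩
      exact hv
    · intro ha
      exact ⟨⟨a, hBU a ha⟩, ha, rfl⟩
  have hcard : A₁.card = B.card := by
    rw [← himg, Finset.card_image_of_injective _ Subtype.val_injective]
  have hA₁ne : A₁.Nonempty := by
    rw [← Finset.card_pos, hcard]
    exact hB.card_pos
  obtain ⟨G, D, hG, hDA, hc, hD⟩ := finite_caseA' (R := ZMod m) (U3_zmod m) K A₁ hA₁ne (by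
    intro a
    have h1 : ((A₁ + A₁.image fun x => a • x).image (U.subtype)) =
        B + B.image fun x => a.val • x := by
      rw [Finset.image_add U.subtype, Finset.image_image]
      congr 1
      rw [← himg, Finset.image_image]
      refine Finset.image_congr fun x _ => ?_
      simp only [Function.comp_apply, AddSubgroup.coe_subtype]
      rw [← AddSubgroup.coe_nsmul]
      congr 1
      rw [← Nat.cast_smul_eq_nsmul (ZMod m), ZMod.natCast_zmod_val]
    have h2 : (A₁ + A₁.image fun x => a • x).card = (B + B.image fun x => a.val • x).card := by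
      rw [← h1, Finset.card_image_of_injective _ (show Function.Injective U.subtype from
        Subtype.val_injective)]
    rw [h2, hcard]
    exact hK a.val)
  refine ⟨G.map U.subtype, D.image (fun v : U => (v : Γ)), ?_, ?_, ?_, ?_, ?_⟩
  · have : Finite G := inferInstance
    exact Finite.of_surjective (fun g : G => (⟨(g : U), ⟨g.1, g.2, rfl⟩⟩ : G.map U.subtype))
      (by rintro ⟨x, y, hy, rfl⟩; exact ⟨⟨y, hy⟩, rfl⟩)
  · have h1 : Nat.card (G.map U.subtype) = Nat.card G :=
      (Nat.card_congr (G.equivMapOfInjective U.subtype Subtype.val_injective).toEquiv).symm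
    rw [h1, ← hcard]
    exact hG
  · intro x hx
    obtain ⟨v, hv, rfl⟩ := Finset.mem_image.1 hx
    exact Finset.mem_preimage.1 (hDA hv)
  · rw [Finset.card_image_of_injective _ Subtype.val_injective, ← hcard]
    exact hc
  · intro x hx y hy
    obtain ⟨v, hv, rfl⟩ := Finset.mem_image.1 hx
    obtain ⟨v', hv', rfl⟩ := Finset.mem_image.1 hy
    exact ⟨v - v', hD v hv v' hv', rfl⟩

/-- the structure theorem -/
theorem structureA (A : Finset Γ) (hA : A.Nonempty) (K : ℝ)
    (hdil : ∀ n : ℕ, ((A + A.image fun x => n • x).card : ℝ) ≤ K * A.card) :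
    ∃ (H : AddSubgroup Γ) (T : Finset Γ), Finite H ∧ (Nat.card H : ℝ) ≤ K ^ 5404 * A.card ∧
      (T.card : ℝ) ≤ K ^ 5406 ∧ ∀ a ∈ A, ∃ t ∈ T, a - t ∈ H := by
  have hpos : (0 : ℝ) < A.card := by exact_mod_cast hA.card_pos
  have hK1 : 1 ≤ K := by
    have h1 : (A.card : ℝ) ≤ (A + A.image fun x => 0 • x).card := by
      exact_mod_cast Finset.card_le_card_add_right (hA.image _)
    have h2 := hdil 0
    nlinarith
  have hK0 : 0 < K := by linarith
  obtain ⟨U, hUfin, hU⟩ := start A hA K hdil
  -- the largest part in a coset of `U`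
  obtain ⟨c, hc, hcbig⟩ : ∃ c ∈ bar U A, (A.card : ℝ) ≤ K *
      (A.filter (fun x => (QuotientAddGroup.mk x : Γ ⧸ U) = c)).card := by
    by_contra hcon
    push Not at hcon
    have h1 : (A.card : ℝ) = ∑ c ∈ bar U A,
        ((A.filter (fun x => (QuotientAddGroup.mk x : Γ ⧸ U) = c)).card : ℝ) := by
      rw [← Nat.cast_sum]
      congr 1
      refine Finset.card_eq_sum_card_fiberwise (f := fun x => (QuotientAddGroup.mk x : Γ ⧸ U)) ?_
      intro x hx
      exact mem_bar hx
    have hne : (bar U A).Nonempty := by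
      obtain ⟨x, hx⟩ := hA
      exact ⟨_, mem_bar hx⟩
    have h2 : ∑ c ∈ bar U A, K *
        ((A.filter (fun x => (QuotientAddGroup.mk x : Γ ⧸ U) = c)).card : ℝ) <
        ∑ c ∈ bar U A, (A.card : ℝ) := Finset.sum_lt_sum_of_nonempty hne hcon
    rw [← Finset.mul_sum, ← h1, Finset.sum_const, nsmul_eq_mul] at h2
    nlinarith
  set A' := A.filter (fun x => (QuotientAddGroup.mk x : Γ ⧸ U) = c) with hA'
  have hA'ne : A'.Nonempty := by
    rw [← Finset.card_pos]
    by_contra hcon
    have h0 : A'.card = 0 := by omega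
    rw [h0] at hcbig
    simp at hcbig
    rw [hcbig] at hA
    exact Finset.not_nonempty_empty hA
  obtain ⟨x₀, hx₀⟩ := hA'ne
  set B := A'.image (fun x => x - x₀) with hB
  have hinj : Function.Injective (fun x : Γ => x - x₀) := sub_left_injective
  have hBc : B.card = A'.card := Finset.card_image_of_injective _ hinj
  have hBU : ∀ b ∈ B, b ∈ U := by
    intro b hb
    obtain ⟨x, hx, rfl⟩ := Finset.mem_image.1 hb
    have h1 := (Finset.mem_filter.1 hx).2
    have h2 := (Finset.mem_filter.1 hx₀).2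
    rw [← h2, eq_comm, QuotientAddGroup.eq] at h1
    have h3 : -x₀ + x = x - x₀ := by abel
    rwa [h3] at h1
  have hBK : ∀ n : ℕ, ((B + B.image fun x => n • x).card : ℝ) ≤ K ^ 2 * (B.card : ℝ) := by
    intro n
    have h1 : B + B.image (fun x => n • x) ⊆
        (A + A.image fun x => n • x).image (fun x => x - (x₀ + n • x₀)) := by
      intro y hy
      obtain ⟨b, hb, b', hb', rfl⟩ := Finset.mem_add.1 hy
      obtain ⟨b'', hb'', rfl⟩ := Finset.mem_image.1 hb'
      obtain ⟨x, hx, rfl⟩ := Finset.mem_image.1 hb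
      obtain ⟨x', hx', rfl⟩ := Finset.mem_image.1 hb''
      refine Finset.mem_image.2 ⟨x + n • x', Finset.add_mem_add (Finset.mem_filter.1 hx).1
        (Finset.mem_image_of_mem _ (Finset.mem_filter.1 hx').1), ?_⟩
      rw [smul_sub]
      abel
    have h2 : ((B + B.image fun x => n • x).card : ℝ) ≤ (A + A.image fun x => n • x).card := by
      exact_mod_cast (Finset.card_le_card h1).trans Finset.card_image_le
    calc ((B + B.image fun x => n • x).card : ℝ) ≤ K * A.card := h2.trans (hdil n)
      _ ≤ K * (K * A'.card) := mul_le_mul_of_nonneg_left hcbig hK0.le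
      _ = K ^ 2 * B.card := by rw [hBc]; ring
  have hBne : B.Nonempty := ⟨_, Finset.mem_image_of_mem _ hx₀⟩
  obtain ⟨G, D, hGf, hGc, hDB, hDc, hDG⟩ := in_subgroup U (K ^ 2) B hBne hBU hBK
  have hDne : D.Nonempty := by
    rw [← Finset.card_pos]
    by_contra hcon
    have h0 : D.card = 0 := by omega
    have h1 : (0 : ℝ) < B.card := by exact_mod_cast hBne.card_pos
    rw [h0] at hDc
    simp at hDc
    rw [hDc] at hBne
    exact Finset.not_nonempty_empty hBne
  have hAB : (A.card : ℝ) ≤ K ^ 5405 * D.card := by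
    calc (A.card : ℝ) ≤ K * A'.card := hcbig
      _ = K * B.card := by rw [hBc]
      _ ≤ K * ((K ^ 2) ^ 2702 * D.card) := mul_le_mul_of_nonneg_left hDc hK0.le
      _ = K ^ 5405 * D.card := by rw [← pow_mul, ← mul_assoc, ← pow_succ']
  have hcov : ((A + D).card : ℝ) ≤ K ^ 5406 * D.card := by
    have h1 : (A + D).card ≤ (A + A.image fun x => 1 • x).card := by
      have h2 : A + D ⊆ (A + A.image fun x => 1 • x).image (fun x => x - x₀) := by
        intro y hy
        obtain ⟨a, ha, d, hd, rfl⟩ := Finset.mem_add.1 hy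
        obtain ⟨x, hx, rfl⟩ := Finset.mem_image.1 (hDB hd)
        refine Finset.mem_image.2 ⟨a + 1 • x, Finset.add_mem_add ha
          (Finset.mem_image_of_mem _ (Finset.mem_filter.1 hx).1), ?_⟩
        rw [one_smul]
        abel
      exact (Finset.card_le_card h2).trans Finset.card_image_le
    have h3 : ((A + D).card : ℝ) ≤ (A + A.image fun x => 1 • x).card := by exact_mod_cast h1
    calc ((A + D).card : ℝ) ≤ K * A.card := h3.trans (hdil 1)
      _ ≤ K * (K ^ 5405 * D.card) := mul_le_mul_of_nonneg_left hAB hK0.le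
      _ = _ := by rw [← mul_assoc, ← pow_succ']
  obtain ⟨F, -, hF, hAF⟩ := Finset.ruzsa_covering_add hDne hcov
  refine ⟨G, F, hGf, ?_, hF, ?_⟩
  · refine hGc.trans ?_
    rw [← pow_mul]
    refine mul_le_mul_of_nonneg_left ?_ (by positivity)
    rw [hBc]
    exact_mod_cast Finset.card_le_card (Finset.filter_subset _ _)
  · intro a ha
    obtain ⟨f, hf, d, hd, hfd⟩ := Finset.mem_add.1 (hAF ha)
    obtain ⟨x, hx, y, hy, hxy⟩ := Finset.mem_sub.1 hd
    refine ⟨f, hf, ?_⟩
    have h1 : a - f = x - y := by rw [← hfd, hxy]; abel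
    rw [h1]
    exact hDG x hx y hy

end Pool.Agent.TH414.UD
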