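import Pool.Agent.TH414.UD.Defs
import Pool.Agent.H137R2.PFR.Final
set_option autoImplicit false

/-! UD-A: the averaged functional: symmetry, minimiser, minimality
(job 4395 of helper414, written by helper570). -/

open scoped Classical

namespace Pool.Agent.TH414.UD

open H137.PFR hiding dist
open Pool.Agent.TH404.Tor

variable {Ω γ : Type*} [Fintype Ω] [Fintype γ]
variable {R : Type*} [CommRing R] [Fintype R]
variable {V : Type*} [AddCommGroup V] [Fintype V] [Module R V]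
variable {η : ℝ} {μ₀ p₁ p₂ : V → ℝ}

namespace Tau

omit [Fintype R] in
/-- the dilate by a unit -/
theorem dil_apply (a : Rˣ) (μ : V → ℝ) (v : V) : dil (a : R) μ v = μ (a⁻¹ • v) := by
  unfold dil push
  have h : ∀ x : V, ((a : R) • x = v) ↔ (x = a⁻¹ • v) := by
    intro x
    rw [eq_inv_smul_iff, Units.smul_def]
  simp only [h]
  simp

omit [Fintype R] in
theorem dil_inv (a : Rˣ) (μ : V → ℝ) : dil ((a⁻¹ : Rˣ) : R) (dil (a : R) μ) = μ := by
  funext v
  rw [dil_apply, dil_apply, inv_inv, inv_smul_smul]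

omit [Fintype R] in
theorem ent_dil (a : Rˣ) (μ : V → ℝ) : ent (dil (a : R) μ) = ent μ := by
  unfold ent
  simp only [dil_apply]
  exact Equiv.sum_comp (MulAction.toPerm (a⁻¹ : Rˣ)) (fun v => Real.negMulLog (μ v))

omit [Fintype R] in
theorem conv_dil (a : Rˣ) (μ ν : V → ℝ) :
    conv (dil (a : R) μ) (dil (a : R) ν) = dil (a : R) (conv μ ν) :=
  (push_conv_hom μ ν (DistribSMul.toAddMonoidHom V (a : R))).symm

omit [Fintype R] in
theorem D2_dil (a : Rˣ) (μ ν : V → ℝ) : D2 (dil (a : R) μ) (dil (a : R) ν) = D2 μ ν := by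
  unfold D2
  rw [conv_dil, ent_dil, ent_dil, ent_dil]

omit [Fintype R] in
theorem law_dil (a : R) {μ : V → ℝ} (h : Law μ) : Law (dil a μ) := law_push h _

omit [Fintype R] in
theorem D2_swap (a : Rˣ) (μ ν : V → ℝ) :
    D2 μ (dil (a : R) ν) = D2 ν (dil ((a⁻¹ : Rˣ) : R) μ) := by
  rw [← D2_dil a⁻¹ μ (dil (a : R) ν), dil_inv, D2_comm]

theorem card_pos : (0 : ℝ) < Fintype.card Rˣ := by
  exact_mod_cast Fintype.card_pos

theorem au_inv (f : Rˣ → ℝ) : au R (fun a => f a⁻¹) = au R f := by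
  unfold au
  rw [Equiv.sum_comp (Equiv.inv Rˣ) f |>.symm]
  rfl

theorem au_const (x : ℝ) : au R (fun _ => x) = x := by
  unfold au
  rw [Finset.sum_const, Finset.card_univ, nsmul_eq_mul, mul_div_cancel_left₀]
  exact card_pos.ne'

theorem au_sub (f g : Rˣ → ℝ) : au R (fun a => f a - g a) = au R f - au R g := by
  unfold au
  rw [Finset.sum_sub_distrib, sub_div]

theorem au_sum {ι : Type*} (s : Finset ι) (f : ι → Rˣ → ℝ) :
    au R (fun a => ∑ i ∈ s, f i a) = ∑ i ∈ s, au R (f i) := by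
  unfold au
  rw [Finset.sum_comm, Finset.sum_div]

theorem au_mul (x : ℝ) (f : Rˣ → ℝ) : au R (fun a => x * f a) = x * au R f := by
  unfold au
  rw [← Finset.mul_sum, mul_div_assoc]

/-- the averaged doubling -/
theorem DA_eq (μ ν : V → ℝ) :
    DA R μ ν = au R (fun a => ent (conv μ (dil (a : R) ν))) - ent μ / 2 - ent ν / 2 := by
  unfold DA D2
  rw [au_sub, au_sub]
  simp only [ent_dil, au_const]

end Tau

open Tau

theorem DA_comm (μ ν : V → ℝ) : DA R μ ν = DA R ν μ := by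
  unfold DA
  rw [← au_inv (fun a : Rˣ => D2 ν (dil (a : R) μ))]
  congr 1
  funext a
  exact D2_swap a μ ν

theorem DA_nonneg {μ ν : V → ℝ} (hμ : Law μ) (hν : Law ν) : 0 ≤ DA R μ ν := by
  unfold DA au
  apply div_nonneg _ card_pos.le
  exact Finset.sum_nonneg fun a _ => dist_nonneg hμ (law_dil (a : R) hν)

namespace Tau

theorem tauA_comm (η : ℝ) (μ₀ μ ν : V → ℝ) : tauA R η μ₀ μ ν = tauA R η μ₀ ν μ := by
  unfold tauA
  rw [DA_comm μ ν]
  ring

theorem cont_tauA (η : ℝ) (μ₀ : V → ℝ) :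
    Continuous (fun p : (V → ℝ) × (V → ℝ) => tauA R η μ₀ p.1 p.2) := by
  unfold tauA DA au
  have h0 : Continuous (fun _ : (V → ℝ) × (V → ℝ) => μ₀) := continuous_const
  refine Continuous.add ?_ (((D_continuous_dist h0 continuous_fst).add
    (D_continuous_dist h0 continuous_snd)).const_mul η)
  refine Continuous.div_const (continuous_finsetSum _ fun a _ => ?_) _
  exact D_continuous_dist continuous_fst (D_continuous_push continuous_snd _)

end Tau

theorem exists_minA (hη : 0 ≤ η) (h0 : Law μ₀) : ∃ p₁ p₂ : V → ℝ, MnA R η μ₀ p₁ p₂ := by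
  have hc : IsCompact ((stdSimplex ℝ V) ×ˢ (stdSimplex ℝ V)) :=
    (isCompact_stdSimplex ℝ V).prod (isCompact_stdSimplex ℝ V)
  have hne : ((stdSimplex ℝ V) ×ˢ (stdSimplex ℝ V)).Nonempty :=
    ⟨(Pi.single 0 1, Pi.single 0 1), single_mem_stdSimplex ℝ 0, single_mem_stdSimplex ℝ 0⟩
  obtain ⟨p, hp, hmin⟩ := hc.exists_isMinOn hne (cont_tauA (R := R) η μ₀).continuousOn
  refine ⟨p.1, p.2, h0, (D_law_iff _).2 hp.1, (D_law_iff _).2 hp.2, hη, fun μ ν hμ hν => ?_⟩
  exact hmin (a := (μ, ν)) ⟨(D_law_iff _).1 hμ, (D_law_iff _).1 hν⟩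

theorem MnA.symm (h : MnA R η μ₀ p₁ p₂) : MnA R η μ₀ p₂ p₁ :=
  ⟨h.l0, h.l2, h.l1, h.pos, fun μ ν hμ hν => by
    rw [tauA_comm]; exact h.min μ ν hμ hν⟩

namespace Tau

theorem push_congr {Ω α β : Type*} [Fintype Ω] (w : Ω → ℝ) (F : Ω → α) (G : Ω → β) (a : α) (b : β)
    (h : ∀ ω, F ω = a ↔ G ω = b) : push w F a = push w G b := by
  unfold push
  refine Finset.sum_congr rfl fun ω _ => ?_
  by_cases h1 : G ω = b
  · rw [if_pos h1, if_pos ((h ω).2 h1)]
  · rw [if_neg h1, if_neg (fun h2 => h1 ((h ω).1 h2))]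

omit [Fintype γ] [Fintype R] in
/-- conditional law of a dilate -/
theorem cnd_smul (w : Ω → ℝ) (Y : Ω → V) (C : Ω → γ) (a : Rˣ) (c : γ) :
    cnd w (fun ω => (a : R) • Y ω) C c = dil (a : R) (cnd w Y C c) := by
  funext v
  rw [dil_apply]
  unfold cnd
  congr 1
  refine push_congr w _ _ _ _ fun ω => ?_
  rw [Prod.mk.injEq, Prod.mk.injEq, eq_inv_smul_iff, Units.smul_def]

omit [Fintype γ] [Fintype R] [Fintype V] in
/-- dilates of conditionally independent variables -/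
theorem CI_smul {w : Ω → ℝ} {X Y : Ω → V} {C : Ω → γ} (h : CI w X Y C) (a : Rˣ) :
    CI w X (fun ω => (a : R) • Y ω) C := by
  intro x y c
  have h1 := h x (a⁻¹ • y) c
  have e1 : ∀ ω, ((X ω, (a : R) • Y ω, C ω) = (x, y, c)) ↔
      ((X ω, Y ω, C ω) = (x, a⁻¹ • y, c)) := by
    intro ω
    rw [Prod.mk.injEq, Prod.mk.injEq, Prod.mk.injEq, Prod.mk.injEq, eq_inv_smul_iff,
      Units.smul_def]
  have e2 : ∀ ω, (((a : R) • Y ω, C ω) = (y, c)) ↔ ((Y ω, C ω) = (a⁻¹ • y, c)) := by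
    intro ω
    rw [Prod.mk.injEq, Prod.mk.injEq, eq_inv_smul_iff, Units.smul_def]
  have e3 : push w (fun ω => (X ω, (a : R) • Y ω, C ω)) (x, y, c) =
      push w (fun ω => (X ω, Y ω, C ω)) (x, a⁻¹ • y, c) :=
    push_congr w _ _ _ _ e1
  have e4 : push w (fun ω => ((a : R) • Y ω, C ω)) (y, c) =
      push w (fun ω => (Y ω, C ω)) (a⁻¹ • y, c) :=
    push_congr w _ _ _ _ e2
  rw [e3, e4]
  exact h1

end Tau

theorem minimalityA (h0 : Law μ₀) {t : ℝ}
    (ht : ∀ μ ν : V → ℝ, Law μ → Law ν → t ≤ tauA R η μ₀ μ ν)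
    {w : Ω → ℝ} (hw : Law w) (X Y : Ω → V) (C : Ω → γ) (hCI : CI w X Y C) :
    t ≤ au R (fun a => H w (fun ω => (X ω + (a : R) • Y ω, C ω)) - H w C)
      - (H w (fun ω => (X ω, C ω)) - H w C) / 2 - (H w (fun ω => (Y ω, C ω)) - H w C) / 2
      + η * ((E0 μ₀ w X C - H w C) - ent μ₀ / 2 - (H w (fun ω => (X ω, C ω)) - H w C) / 2
        + ((E0 μ₀ w Y C - H w C) - ent μ₀ / 2 - (H w (fun ω => (Y ω, C ω)) - H w C) / 2)) := by
  have hp := law_push hw C
  have e1 : ∀ a : Rˣ, H w (fun ω => (X ω + (a : R) • Y ω, C ω)) - H w C =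
      ∑ c, push w C c * ent (conv (cnd w X C c) (dil (a : R) (cnd w Y C c))) := by
    intro a
    rw [H_chain hw (fun ω => X ω + (a : R) • Y ω) C, add_sub_cancel_left]
    refine Finset.sum_congr rfl fun c _ => ?_
    by_cases hc : push w C c = 0
    · rw [hc, zero_mul, zero_mul]
    · rw [B_cnd_add X (fun ω => (a : R) • Y ω) C (CI_smul hCI a) hc, cnd_smul]
  have e1' : au R (fun a => H w (fun ω => (X ω + (a : R) • Y ω, C ω)) - H w C) =
      ∑ c, push w C c * au R (fun a => ent (conv (cnd w X C c) (dil (a : R) (cnd w Y C c)))) := by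
    simp only [e1]
    rw [au_sum]
    simp only [au_mul]
  have e2 : ∀ X : Ω → V, H w (fun ω => (X ω, C ω)) - H w C =
      ∑ c, push w C c * ent (cnd w X C c) := by
    intro X
    rw [H_chain hw X C, add_sub_cancel_left]
  have e3 : ∀ X : Ω → V, E0 μ₀ w X C - H w C = ∑ c, push w C c * ent (conv μ₀ (cnd w X C c)) := by
    intro X
    unfold E0
    rw [H_chain (law_prod h0 hw) (fun p : V × Ω => p.1 + X p.2) (fun p => C p.2),
      H_prod_snd h0 hw C, add_sub_cancel_left]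
    refine Finset.sum_congr rfl fun c _ => ?_
    rw [B_push_snd h0]
    by_cases hc : push w C c = 0
    · rw [hc, zero_mul, zero_mul]
    · rw [B_cnd_E0 h0 w X C hc]
  have e4 : ∑ c, push w C c * (ent μ₀) = ent μ₀ := by
    rw [← Finset.sum_mul, hp.2, one_mul]
  have e5 : t = ∑ c, push w C c * t := by
    rw [← Finset.sum_mul, hp.2, one_mul]
  have e6 : ∑ c, push w C c * t ≤
      ∑ c, push w C c * tauA R η μ₀ (cnd w X C c) (cnd w Y C c) := by
    refine Finset.sum_le_sum fun c _ => ?_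
    by_cases hc : push w C c = 0
    · rw [hc, zero_mul, zero_mul]
    · exact mul_le_mul_of_nonneg_left (ht _ _ (law_cnd hw X C hc) (law_cnd hw Y C hc)) (hp.1 c)
  rw [e1', e2, e2, e3, e3, e5]
  refine e6.trans (le_of_eq ?_)
  conv_rhs => rw [← e4]
  simp only [Finset.sum_div, ← Finset.sum_sub_distrib, ← Finset.sum_add_distrib, Finset.mul_sum]
  refine Finset.sum_congr rfl fun c _ => ?_
  unfold tauA
  rw [DA_eq]
  unfold D2
  ring

end Pool.Agent.TH414.UD
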