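import Pool.Agent.TH414.UD.Defs
import Pool.Agent.TH414.UD.Tau
set_option autoImplicit false

/-! The growth step for the averaged functional. -/

open scoped Classical

namespace Pool.Agent.TH414.UD

open H137.PFR hiding dist
open Pool.Agent.TH404.Tor

variable {Ω γ : Type*} [Fintype Ω] [Fintype γ]
variable {R : Type*} [CommRing R] [Fintype R]
variable {V : Type*} [AddCommGroup V] [Fintype V] [Module R V]
variable {η : ℝ} {μ₀ p₁ p₂ : V → ℝ}

namespace Gr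

theorem card_pos' : (0 : ℝ) < Fintype.card Rˣ := by
  exact_mod_cast Fintype.card_pos

theorem au_mono {f g : Rˣ → ℝ} (h : ∀ a, f a ≤ g a) : au R f ≤ au R g := by
  unfold au
  exact div_le_div_of_nonneg_right (Finset.sum_le_sum fun a _ => h a) (card_pos' (R := R)).le

theorem au_add (f g : Rˣ → ℝ) : au R (fun a => f a + g a) = au R f + au R g := by
  unfold au
  rw [Finset.sum_add_distrib, add_div]

theorem au_const (c : ℝ) : au R (fun _ => c) = c := by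
  unfold au
  rw [Finset.sum_const, Finset.card_univ, nsmul_eq_mul]
  exact mul_div_cancel_left₀ c (card_pos' (R := R)).ne'

theorem au_sub_const (f : Rˣ → ℝ) (c : ℝ) : au R (fun a => f a - c) = au R f - c := by
  have h := au_add (R := R) f (fun _ => -c)
  rw [au_const] at h
  simpa [sub_eq_add_neg] using h

theorem au_mul_right (f : Rˣ → ℝ) (u : Rˣ) : au R (fun a => f (a * u)) = au R f := by
  unfold au
  rw [Fintype.sum_equiv (Equiv.mulRight u) (fun a => f (a * u)) f (fun a => rfl)]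

/-- the entropy of a dilate by a unit -/
theorem ent_dil {p : V → ℝ} (hp : Law p) (a : Rˣ) : ent (dil (a : R) p) = ent p := by
  have h1 : H p (fun x : V => (a : R) • x) = H p (fun x : V => x) :=
    H_eq hp (fun x => ((a⁻¹ : Rˣ) : R) • x) (fun x => (a : R) • x)
      (fun x => by rw [smul_smul, Units.inv_mul, one_smul]) (fun x => rfl)
  rw [H_id] at h1
  exact h1

/-- entropy of `P₁ + a P₂` -/
theorem H_sum_dil {w : Ω → ℝ} {P1 P2 : Ω → V} (i : Ind w P1 P2) (hP1 : push w P1 = p₁)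
    (hP2 : push w P2 = p₂) (h2 : Law p₂) (a : Rˣ) :
    H w (fun ω => P1 ω + (a : R) • P2 ω) = D2 p₁ (dil (a : R) p₂) + (ent p₁ + ent p₂) / 2 := by
  have h1 := (i.comp (fun x => x) (fun x => (a : R) • x)).push_add
  have h3 : push w (fun ω => (a : R) • P2 ω) = dil (a : R) p₂ := by
    rw [← hP2]
    exact (push_push w P2 (fun x => (a : R) • x)).symm
  unfold H
  rw [h1, h3, hP1]
  unfold D2
  rw [ent_dil h2]
  ring

theorem fibA (h : MnA R η μ₀ p₁ p₂) (c₁ c₂ : Rˣ) {w : Ω → ℝ} (hw : Law w) (P1 P2 B1 B2 : Ω → V)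
    (i0 : Ind w (fun ω => (P1 ω, B1 ω)) (fun ω => (P2 ω, B2 ω)))
    (i1 : Ind w P1 B1) (i2 : Ind w P2 B2) (hP1 : push w P1 = p₁) (hP2 : push w P2 = p₂) :
    H w (fun ω => (c₁ : R) • P1 ω + B1 ω) + H w (fun ω => (c₂ : R) • P2 ω + B2 ω) + DA R p₁ p₂
      + (ent p₁ + ent p₂) / 2
      - (1 + η) / 2 * ((H w (fun ω => (c₁ : R) • P1 ω + B1 ω) - H w B1)
        + (H w (fun ω => (c₂ : R) • P2 ω + B2 ω) - H w B2)) ≤
    au R (fun a => H w (fun ω => (P1 ω + (a : R) • P2 ω,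
      ((c₁ : R) • P1 ω + B1 ω, (c₂ : R) • P2 ω + B2 ω)))) := by
  set C1 : Ω → V := fun ω => (c₁ : R) • P1 ω + B1 ω with hC1
  set C2 : Ω → V := fun ω => (c₂ : R) • P2 ω + B2 ω with hC2
  have hI : Ind w (fun ω => (P1 ω, C1 ω)) (fun ω => (P2 ω, C2 ω)) :=
    i0.comp (fun q : V × V => (q.1, (c₁ : R) • q.1 + q.2))
      (fun q : V × V => (q.1, (c₂ : R) • q.1 + q.2))
  have hmain := minimalityA h.l0 h.min hw P1 P2 (fun ω => (C1 ω, C2 ω)) hI.CI
  rw [au_sub_const] at hmain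
  have e0 : H w P1 = ent p₁ := by rw [← hP1]; rfl
  have e0' : H w P2 = ent p₂ := by rw [← hP2]; rfl
  have e1 : H w (fun ω => (P1 ω, (C1 ω, C2 ω))) = ent p₁ + H w B1 + H w C2 := by
    have a1 : H w (fun ω => (P1 ω, (C1 ω, C2 ω))) = H w (fun ω => ((P1 ω, B1 ω), C2 ω)) :=
      H_eq hw (fun q => ((q.1, q.2.1 - (c₁ : R) • q.1), q.2.2))
        (fun q => (q.1.1, ((c₁ : R) • q.1.1 + q.1.2, q.2)))
        (fun ω => by simp [hC1]) (fun ω => by simp [hC1])
    have a2 : Ind w (fun ω => (P1 ω, B1 ω)) C2 :=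
      i0.comp (fun q => q) (fun q : V × V => (c₂ : R) • q.1 + q.2)
    rw [a1, a2.H hw, i1.H hw, e0]
  have e2 : H w (fun ω => (P2 ω, (C1 ω, C2 ω))) = ent p₂ + H w B2 + H w C1 := by
    have a1 : H w (fun ω => (P2 ω, (C1 ω, C2 ω))) = H w (fun ω => (C1 ω, (P2 ω, B2 ω))) :=
      H_eq hw (fun q => (q.2.1, (q.1, q.2.2 - (c₂ : R) • q.1)))
        (fun q => (q.2.1, (q.1, (c₂ : R) • q.2.1 + q.2.2)))
        (fun ω => by simp [hC2]) (fun ω => by simp [hC2])
    have a2 : Ind w C1 (fun ω => (P2 ω, B2 ω)) :=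
      i0.comp (fun q : V × V => (c₁ : R) • q.1 + q.2) (fun q => q)
    rw [a1, a2.H hw, i2.H hw, e0']
    ring
  have e3 : H w (fun ω => (C1 ω, C2 ω)) = H w C1 + H w C2 := by
    have a2 : Ind w C1 C2 := hI.comp (fun q => q.2) (fun q => q.2)
    exact a2.H hw
  have e4 : E0 μ₀ w P1 (fun ω => (C1 ω, C2 ω)) - H w (fun ω => (C1 ω, C2 ω)) ≤
      ent (conv μ₀ p₁) := by
    have a1 := E0_cond_le h.l0 hw P1 (fun ω => (C1 ω, C2 ω))
    rwa [E0_push h.l0 hw, hP1] at a1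
  have e5 : E0 μ₀ w P2 (fun ω => (C1 ω, C2 ω)) - H w (fun ω => (C1 ω, C2 ω)) ≤
      ent (conv μ₀ p₂) := by
    have a1 := E0_cond_le h.l0 hw P2 (fun ω => (C1 ω, C2 ω))
    rwa [E0_push h.l0 hw, hP2] at a1
  rw [e1, e2] at hmain
  have e6 := mul_le_mul_of_nonneg_left e4 h.pos
  have e7 := mul_le_mul_of_nonneg_left e5 h.pos
  unfold tauA at hmain
  have d1 : D2 μ₀ p₁ = ent (conv μ₀ p₁) - ent μ₀ / 2 - ent p₁ / 2 := rfl
  have d2 : D2 μ₀ p₂ = ent (conv μ₀ p₂) - ent μ₀ / 2 - ent p₂ / 2 := rfl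
  rw [d1, d2] at hmain
  rw [e3] at hmain e6 e7
  nlinarith [hmain, e6, e7]

/-- growth of the doubling -/
theorem fibA_growth (h : MnA R η μ₀ p₁ p₂) (c₁ c₂ : Rˣ) {w : Ω → ℝ} (hw : Law w)
    (P1 P2 B1 B2 : Ω → V)
    (i0 : Ind w (fun ω => (P1 ω, B1 ω)) (fun ω => (P2 ω, B2 ω)))
    (i1 : Ind w P1 B1) (i2 : Ind w P2 B2) (hP1 : push w P1 = p₁) (hP2 : push w P2 = p₂) :
    au R (fun a => H w (fun ω => ((c₁ : R) • P1 ω + B1 ω) + (a : R) • ((c₂ : R) • P2 ω + B2 ω))) ≤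
      au R (fun a => H w (fun ω => B1 ω + (a : R) • B2 ω)) +
      (1 + η) / 2 * ((H w (fun ω => (c₁ : R) • P1 ω + B1 ω) - H w B1)
        + (H w (fun ω => (c₂ : R) • P2 ω + B2 ω) - H w B2)) := by
  have hF := fibA h c₁ c₂ hw P1 P2 B1 B2 i0 i1 i2 hP1 hP2
  set C1 : Ω → V := fun ω => (c₁ : R) • P1 ω + B1 ω with hC1
  set C2 : Ω → V := fun ω => (c₂ : R) • P2 ω + B2 ω with hC2
  have s3 : H w (fun ω => (C1 ω, C2 ω)) = H w C1 + H w C2 := by
    have a2 : Ind w C1 C2 :=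
      i0.comp (fun q : V × V => (c₁ : R) • q.1 + q.2) (fun q : V × V => (c₂ : R) • q.1 + q.2)
    rw [a2.H hw]
  have key : ∀ a : Rˣ, H w (fun ω => (P1 ω + ((a * (c₂ * c₁⁻¹) : Rˣ) : R) • P2 ω, (C1 ω, C2 ω))) +
      H w (fun ω => C1 ω + (a : R) • C2 ω) ≤ H w C1 + H w C2 +
      (H w (fun ω => B1 ω + (a : R) • B2 ω) + (D2 p₁ (dil ((a * (c₂ * c₁⁻¹) : Rˣ) : R) p₂) +
        (ent p₁ + ent p₂) / 2)) := by
    intro a
    set u : Rˣ := a * (c₂ * c₁⁻¹) with hu
    have hcu : (c₁ : R) * (u : R) = (a : R) * (c₂ : R) := by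
      rw [hu]
      push_cast
      have := Units.mul_inv c₁
      calc (c₁ : R) * ((a : R) * ((c₂ : R) * ((c₁⁻¹ : Rˣ) : R)))
          = ((c₁ : R) * ((c₁⁻¹ : Rˣ) : R)) * ((a : R) * (c₂ : R)) := by ring
        _ = _ := by rw [this, one_mul]
    have hsm : ∀ x : V, (a : R) • (c₂ : R) • x = (c₁ : R) • (u : R) • x := by
      intro x
      rw [smul_smul, smul_smul, hcu]
    have hinv : ∀ x : V, ((a⁻¹ : Rˣ) : R) • (a : R) • x = x := by
      intro x
      rw [smul_smul, Units.inv_mul, one_smul]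
    have s1 := H_submod hw C1 (fun ω => (B1 ω + (a : R) • B2 ω, P1 ω + (u : R) • P2 ω))
      (fun ω => C1 ω + (a : R) • C2 ω)
    have s2 : H w (fun ω => (C1 ω, (B1 ω + (a : R) • B2 ω, P1 ω + (u : R) • P2 ω),
        C1 ω + (a : R) • C2 ω)) = H w (fun ω => (P1 ω + (u : R) • P2 ω, (C1 ω, C2 ω))) :=
      H_eq hw (fun q => (q.2.1.2, (q.1, ((a⁻¹ : Rˣ) : R) • (q.2.2 - q.1))))
        (fun q => (q.2.1, (q.2.1 + (a : R) • q.2.2 - (c₁ : R) • q.1, q.1),
          q.2.1 + (a : R) • q.2.2))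
        (fun ω => by
          simp only [add_sub_cancel_left, hinv])
        (fun ω => by
          simp only [hC1, hC2, Prod.mk.injEq, smul_add, hsm, true_and, and_true]
          abel)
    have s3' : H w (fun ω => (C1 ω, C1 ω + (a : R) • C2 ω)) = H w C1 + H w C2 := by
      have a1 : H w (fun ω => (C1 ω, C1 ω + (a : R) • C2 ω)) = H w (fun ω => (C1 ω, C2 ω)) :=
        H_eq hw (fun q => (q.1, ((a⁻¹ : Rˣ) : R) • (q.2 - q.1)))
          (fun q => (q.1, q.1 + (a : R) • q.2))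
          (fun ω => by simp only [add_sub_cancel_left, hinv]) (fun ω => rfl)
      rw [a1, s3]
    have s4 : H w (fun ω => ((B1 ω + (a : R) • B2 ω, P1 ω + (u : R) • P2 ω),
        C1 ω + (a : R) • C2 ω)) = H w (fun ω => (B1 ω + (a : R) • B2 ω, P1 ω + (u : R) • P2 ω)) :=
      H_eq hw (fun q => q.1) (fun q => (q, q.1 + (c₁ : R) • q.2))
        (fun ω => rfl) (fun ω => by
          simp only [hC1, hC2, Prod.mk.injEq, smul_add, hsm, true_and]
          abel)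
    have s5 := H_subadd hw (fun ω => B1 ω + (a : R) • B2 ω) (fun ω => P1 ω + (u : R) • P2 ω)
    have s6 : H w (fun ω => P1 ω + (u : R) • P2 ω) =
        D2 p₁ (dil (u : R) p₂) + (ent p₁ + ent p₂) / 2 :=
      H_sum_dil (i0.comp (fun q => q.1) (fun q => q.1)) hP1 hP2 h.l2 u
    rw [s2, s3', s4] at s1
    rw [s6] at s5
    linarith
  have hav := au_mono (R := R) key
  have hsplit : au R (fun a : Rˣ => H w C1 + H w C2 +
      (H w (fun ω => B1 ω + (a : R) • B2 ω) + (D2 p₁ (dil ((a * (c₂ * c₁⁻¹) : Rˣ) : R) p₂) +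
        (ent p₁ + ent p₂) / 2))) = H w C1 + H w C2 +
      (au R (fun a : Rˣ => H w (fun ω => B1 ω + (a : R) • B2 ω)) +
        (DA R p₁ p₂ + (ent p₁ + ent p₂) / 2)) := by
    rw [au_add (fun _ => H w C1 + H w C2) (fun a : Rˣ =>
      (H w (fun ω => B1 ω + (a : R) • B2 ω) + (D2 p₁ (dil ((a * (c₂ * c₁⁻¹) : Rˣ) : R) p₂) +
        (ent p₁ + ent p₂) / 2))), au_const,
      au_add (fun a : Rˣ => H w (fun ω => B1 ω + (a : R) • B2 ω)) (fun a : Rˣ =>
        (D2 p₁ (dil ((a * (c₂ * c₁⁻¹) : Rˣ) : R) p₂) + (ent p₁ + ent p₂) / 2)),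
      au_add (fun a : Rˣ => D2 p₁ (dil ((a * (c₂ * c₁⁻¹) : Rˣ) : R) p₂))
        (fun _ => (ent p₁ + ent p₂) / 2), au_const,
      au_mul_right (fun a : Rˣ => D2 p₁ (dil (a : R) p₂)) (c₂ * c₁⁻¹)]
    rfl
  rw [hsplit, au_add, au_mul_right (fun a : Rˣ =>
    H w (fun ω => (P1 ω + (a : R) • P2 ω, (C1 ω, C2 ω)))) (c₂ * c₁⁻¹)] at hav
  linarith

end Gr

theorem growthA (h : MnA R η μ₀ p₁ p₂) (c₁ c₂ : Rˣ) (b₁ b₂ : PL V) :
    au R (fun a => ((dl (c₁ : R) (mkL h.l1) * b₁) *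
        dl (a : R) (dl (c₂ : R) (mkL h.l2) * b₂)).e) ≤
      au R (fun a => (b₁ * dl (a : R) b₂).e) +
      (1 + η) / 2 * (((dl (c₁ : R) (mkL h.l1) * b₁).e - b₁.e)
        + ((dl (c₂ : R) (mkL h.l2) * b₂).e - b₂.e)) := by
  have hn1 : Law (prod p₁ b₁.1) := law_prod h.l1 b₁.2
  have hn2 : Law (prod p₂ b₂.1) := law_prod h.l2 b₂.2
  set W : (V × V) × (V × V) → ℝ := prod (prod p₁ b₁.1) (prod p₂ b₂.1) with hW
  have hWl : Law W := law_prod hn1 hn2
  have j1 : ∀ f : V × V → V, push W (fun q => f q.1) = push (prod p₁ b₁.1) f :=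
    fun f => push_prod_fst _ hn2 f
  have j2 : ∀ f : V × V → V, push W (fun q => f q.2) = push (prod p₂ b₂.1) f :=
    fun f => push_prod_snd hn1 _ f
  have i0 : Ind W (fun q => (q.1.1, q.1.2)) (fun q => (q.2.1, q.2.2)) :=
    ind_prod hn1 hn2 (fun p : V × V => (p.1, p.2)) (fun p : V × V => (p.1, p.2))
  have n1 : push W (fun q => q.1.1) = p₁ := by
    rw [j1 (fun p => p.1), push_prod_fst p₁ b₁.2 (fun x => x), push_id']
  have n2 : push W (fun q => q.1.2) = b₁.1 := by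
    rw [j1 (fun p => p.2), push_prod_snd h.l1 b₁.1 (fun x => x), push_id']
  have n3 : push W (fun q => q.2.1) = p₂ := by
    rw [j2 (fun p => p.1), push_prod_fst p₂ b₂.2 (fun x => x), push_id']
  have n4 : push W (fun q => q.2.2) = b₂.1 := by
    rw [j2 (fun p => p.2), push_prod_snd h.l2 b₂.1 (fun x => x), push_id']
  have i1 : Ind W (fun q => q.1.1) (fun q => q.1.2) := by
    intro a b
    have e1 : push W (fun q => (q.1.1, q.1.2)) = push (prod p₁ b₁.1) (fun p => (p.1, p.2)) :=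
      push_prod_fst _ hn2 (fun p : V × V => (p.1, p.2))
    rw [e1, n1, n2]
    have e2 := push_prod p₁ b₁.1 (fun x : V => x) (fun x : V => x) a b
    rw [push_id' p₁, push_id' b₁.1] at e2
    exact e2
  have i2 : Ind W (fun q => q.2.1) (fun q => q.2.2) := by
    intro a b
    have e1 : push W (fun q => (q.2.1, q.2.2)) = push (prod p₂ b₂.1) (fun p => (p.1, p.2)) :=
      push_prod_snd hn1 _ (fun p : V × V => (p.1, p.2))
    rw [e1, n3, n4]
    have e2 := push_prod p₂ b₂.1 (fun x : V => x) (fun x : V => x) a b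
    rw [push_id' p₂, push_id' b₂.1] at e2
    exact e2
  have hm := Gr.fibA_growth h c₁ c₂ hWl (fun q => q.1.1) (fun q => q.2.1) (fun q => q.1.2)
    (fun q => q.2.2) i0 i1 i2 n1 n3
  have d1 : push W (fun q => (c₁ : R) • q.1.1 + q.1.2) = (dl (c₁ : R) (mkL h.l1) * b₁).1 := by
    have a1 := (i1.comp (fun x => (c₁ : R) • x) (fun x => x)).push_add
    have a2 : push W (fun q => (c₁ : R) • q.1.1) = push p₁ (fun x => (c₁ : R) • x) := by
      rw [← n1]
      exact (push_push W (fun q => q.1.1) (fun x => (c₁ : R) • x)).symm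
    rw [a1, a2, n2]
    rfl
  have d2 : push W (fun q => (c₂ : R) • q.2.1 + q.2.2) = (dl (c₂ : R) (mkL h.l2) * b₂).1 := by
    have a1 := (i2.comp (fun x => (c₂ : R) • x) (fun x => x)).push_add
    have a2 : push W (fun q => (c₂ : R) • q.2.1) = push p₂ (fun x => (c₂ : R) • x) := by
      rw [← n3]
      exact (push_push W (fun q => q.2.1) (fun x => (c₂ : R) • x)).symm
    rw [a1, a2, n4]
    rfl
  have m1 : H W (fun q => (c₁ : R) • q.1.1 + q.1.2) = (dl (c₁ : R) (mkL h.l1) * b₁).e := by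
    unfold H
    rw [d1]
    rfl
  have m2 : H W (fun q => (c₂ : R) • q.2.1 + q.2.2) = (dl (c₂ : R) (mkL h.l2) * b₂).e := by
    unfold H
    rw [d2]
    rfl
  have m3 : H W (fun q => q.1.2) = b₁.e := by unfold H; rw [n2]; rfl
  have m4 : H W (fun q => q.2.2) = b₂.e := by unfold H; rw [n4]; rfl
  have m5 : ∀ a : Rˣ, H W (fun q => q.1.2 + (a : R) • q.2.2) = (b₁ * dl (a : R) b₂).e := by
    intro a
    have a1 := (i0.comp (fun q => q.2) (fun q => (a : R) • q.2)).push_add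
    have a2 : push W (fun q => (a : R) • q.2.2) = push b₂.1 (fun x => (a : R) • x) := by
      rw [← n4]
      exact (push_push W (fun q => q.2.2) (fun x => (a : R) • x)).symm
    unfold H
    rw [a1, a2, n2]
    rfl
  have m6 : ∀ a : Rˣ, H W (fun q => (c₁ : R) • q.1.1 + q.1.2 +
      (a : R) • ((c₂ : R) • q.2.1 + q.2.2)) =
      ((dl (c₁ : R) (mkL h.l1) * b₁) * dl (a : R) (dl (c₂ : R) (mkL h.l2) * b₂)).e := by
    intro a
    have a1 := (i0.comp (fun q => (c₁ : R) • q.1 + q.2)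
      (fun q => (a : R) • ((c₂ : R) • q.1 + q.2))).push_add
    have a2 : push W (fun q => (a : R) • ((c₂ : R) • q.2.1 + q.2.2)) =
        push (dl (c₂ : R) (mkL h.l2) * b₂).1 (fun x => (a : R) • x) := by
      rw [← d2]
      exact (push_push W (fun q => (c₂ : R) • q.2.1 + q.2.2) (fun x => (a : R) • x)).symm
    unfold H
    rw [a1, a2, d1]
    rfl
  simp only [m1, m2, m3, m4, m5, m6] at hm
  exact hm

end Pool.Agent.TH414.UD
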