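import Pool.Agent.TH414.UD.Gen
set_option autoImplicit false

open scoped Classical Pointwise

namespace Pool.Agent.TH414.UD

open Pool.Agent.TH414.Dil

variable {Γ : Type*} [AddCommGroup Γ]

theorem bar_le (H : AddSubgroup Γ) (A T : Finset Γ) (h : ∀ a ∈ A, ∃ t ∈ T, a - t ∈ H) :
    (bar H A).card ≤ T.card := by
  refine (Finset.card_le_card ?_).trans (Finset.card_image_le (s := T)
    (f := fun x => (QuotientAddGroup.mk x : Γ ⧸ H)))
  intro c hc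
  obtain ⟨a, ha, rfl⟩ := exists_rep hc
  obtain ⟨t, ht, hat⟩ := h a ha
  refine Finset.mem_image.2 ⟨t, ht, ?_⟩
  rw [QuotientAddGroup.eq]
  have h3 : -t + a = a - t := by abel
  rwa [h3]

theorem q1A (A : Finset Γ) (hA : A.Nonempty) (K : ℝ)
    (hdil : ∀ n : ℕ, ((A + A.image fun x => n • x).card : ℝ) ≤ K * A.card) :
    (∃ (H : AddSubgroup Γ) (T : Finset Γ), Finite H ∧ (Nat.card H : ℝ) ≤ K ^ 5404 * A.card ∧
      (T.card : ℝ) ≤ K ^ 5406 ∧ ∀ a ∈ A, ∃ t ∈ T, a - t ∈ H) ∧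
    (∃ (B : Set (Fin 1 → ℝ)) (ψ : (Fin 1 → ℤ) →+ Γ) (H : AddSubgroup Γ) (T : Finset Γ),
      Convex ℝ B ∧ IsCompact B ∧ (interior B).Nonempty ∧ (∀ x ∈ B, -x ∈ B) ∧
      Finite H ∧
      {x : Fin 1 → ℤ | (fun i => (x i : ℝ)) ∈ B}.ncard * Nat.card H ≤ A.card ∧
      (T.card : ℝ) ≤ 8 * K ^ 10812 ∧
      ∀ a ∈ A, ∃ t ∈ T, ∃ x : Fin 1 → ℤ, (fun i => (x i : ℝ)) ∈ B ∧
        ∃ h ∈ H, a = t + ψ x + h) := by
  have hpos : (0 : ℝ) < A.card := by exact_mod_cast hA.card_pos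
  have hK1 : 1 ≤ K := by
    have h1 : (A.card : ℝ) ≤ (A + A.image fun x => 0 • x).card := by
      exact_mod_cast Finset.card_le_card_add_right (hA.image _)
    have h2 := hdil 0
    nlinarith
  have hs := structureA A hA K hdil
  refine ⟨hs, ?_⟩
  obtain ⟨H, T, hf, h1, h2, h3⟩ := hs
  have hb : ((bar H A).card : ℝ) ≤ K ^ 5406 := by
    have : ((bar H A).card : ℝ) ≤ T.card := by exact_mod_cast bar_le H A T h3
    exact this.trans h2
  have h4 : (Nat.card H : ℝ) ≤ 2 * K ^ 5406 * A.card := by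
    refine h1.trans ?_
    have a1 : K ^ 5404 ≤ K ^ 5406 := pow_le_pow_right₀ hK1 (by norm_num)
    have a2 : 0 ≤ K ^ 5406 := by positivity
    exact mul_le_mul_of_nonneg_right (by linarith) hpos.le
  obtain ⟨B, ψ, H', T', r1, r2, r3, r4, r5, r6, r7, r8⟩ :=
    q1_form A hA (K ^ 5406) (one_le_pow₀ hK1) H hb h4
  refine ⟨B, ψ, H', T', r1, r2, r3, r4, r5, r6, ?_, r8⟩
  rw [← pow_mul] at r7
  exact r7

end Pool.Agent.TH414.UD
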