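import Pool.Agent.TH414.UD.Ent
set_option autoImplicit false

/-! The subgroup found is a submodule. -/

open scoped Classical Pointwise

namespace Pool.Agent.TH414.UD

open H137.PFR hiding dist
open Pool.Agent.TH404.Tor

variable {R : Type*} [CommRing R] [Fintype R]
variable {V : Type*} [AddCommGroup V] [Fintype V] [Module R V]

omit [Fintype R] in
theorem dil_apply (a : Rˣ) (μ : V → ℝ) (y : V) :
    dil (a : R) μ y = μ (((a⁻¹ : Rˣ) : R) • y) := by
  unfold dil push
  rw [Finset.sum_eq_single (((a⁻¹ : Rˣ) : R) • y)]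
  · have hy : (a : R) • ((a⁻¹ : Rˣ) : R) • y = y := by
      rw [smul_smul, Units.mul_inv, one_smul]
    simp only [hy, if_true]
  · intro x _ hx
    rw [if_neg]
    intro hc
    apply hx
    simp only [← hc, smul_smul, Units.inv_mul, one_smul]
  · intro h
    exact absurd (Finset.mem_univ _) h

theorem log_card_le {ν : V → ℝ} (hν : Law ν) (S : AddSubgroup V)
    (hinv : ∀ h ∈ S, ∀ x, ν (x + h) = ν x) : Real.log (Nat.card S) ≤ ent ν := by
  have h1 := entMod_add_log_le (law_single (V := V)) hν S hinv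
  rw [conv_comm, conv_one] at h1
  have e3 : 0 ≤ entMod (Pi.single (0 : V) (1 : ℝ)) S := H_nonneg law_single _
  linarith

/-- the stabiliser of a law -/
def stab (ν : V → ℝ) : AddSubgroup V where
  carrier := {h | ∀ x, ν (x + h) = ν x}
  zero_mem' := by intro x; rw [add_zero]
  add_mem' := by
    intro a b ha hb x
    rw [← add_assoc, hb, ha]
  neg_mem' := by
    intro a ha x
    have := ha (x + -a)
    rw [neg_add_cancel_right] at this
    exact this.symm

theorem stab_eq {ν : V → ℝ} (hν : Law ν) (G : AddSubgroup V)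
    (hinv : ∀ h ∈ G, ∀ x, ν (x + h) = ν x) (he : ent ν = Real.log (Nat.card G)) :
    stab ν = G := by
  have hle : G ≤ stab ν := fun h hh => hinv h hh
  have h1 := log_card_le hν (stab ν) (fun h hh => hh)
  rw [he] at h1
  have hpos : (0 : ℝ) < Nat.card (stab ν) := by exact_mod_cast Nat.card_pos
  have hpos' : (0 : ℝ) < Nat.card G := by exact_mod_cast Nat.card_pos
  have h2 : Nat.card (stab ν) ≤ Nat.card G := by
    exact_mod_cast (Real.log_le_log_iff hpos hpos').1 h1
  have h3 : (G : Set V) = (stab ν : Set V) := by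
    refine Set.eq_of_subset_of_ncard_le hle ?_ (Set.toFinite _)
    rw [← Nat.card_coe_set_eq, ← Nat.card_coe_set_eq]
    exact h2
  exact (SetLike.coe_injective h3).symm

theorem entropicS (hU : U3 R) {μ : V → ℝ} (hμ : Law μ) {k : ℝ} (h1 : DA R μ μ ≤ k)
    (h2 : D2 μ μ ≤ k) :
    ∃ G : AddSubgroup V, (∀ (c : R), ∀ x ∈ G, c • x ∈ G) ∧ entMod μ G ≤ 2702 * k ∧
      Real.log (Nat.card G) - ent μ ≤ 2702 * k := by
  obtain ⟨μ₁, μ₂, h⟩ := exists_minA (R := R) (η := 1 / 2700) (by norm_num) hμ
  have hμ₁ := h.l1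
  have hμ₂ := h.l2
  have hd := zeroA hU h
  have hda : ∀ a : Rˣ, D2 μ₁ (dil (a : R) μ₂) = 0 := by
    unfold DA au at hd
    rw [div_eq_zero_iff] at hd
    rcases hd with hd | hd
    · have a0 : ∀ a ∈ (Finset.univ : Finset Rˣ), 0 ≤ D2 μ₁ (dil (a : R) μ₂) := fun a _ =>
        dist_nonneg hμ₁ (law_dil hμ₂ (a : R))
      exact fun a => (Finset.sum_eq_zero_iff_of_nonneg a0).1 hd a (Finset.mem_univ _)
    · exact absurd hd (card_u_pos (R := R)).ne'
  have a2 : dil ((1 : Rˣ) : R) μ₂ = μ₂ := by
    unfold dil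
    simp only [Units.val_one, one_smul]
    exact push_id' μ₂
  have hd1 : D2 μ₁ μ₂ = 0 := by
    have a1 := hda 1
    rwa [a2] at a1
  obtain ⟨G, hG1, he1, hG2, he2⟩ := hundred hμ₁ hμ₂ hd1
  have hs1 : stab μ₁ = G := stab_eq hμ₁ G hG1 he1
  have hunit : ∀ (a : Rˣ), ∀ x ∈ G, (a : R) • x ∈ G := by
    intro a x hx
    obtain ⟨Ga, hGa1, hea1, hGa2, hea2⟩ := hundred hμ₁ (law_dil hμ₂ (a : R)) (hda a)
    have e1 : Ga = G := by rw [← hs1, stab_eq hμ₁ Ga hGa1 hea1]
    rw [e1] at hGa2 hea2
    have e2 : stab (dil (a : R) μ₂) = G := stab_eq (law_dil hμ₂ (a : R)) G hGa2 hea2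
    rw [← e2]
    intro y
    rw [dil_apply, dil_apply, smul_add, smul_smul, Units.inv_mul, one_smul]
    exact hG2 x hx _
  refine ⟨G, ?_, ?_⟩
  · intro c x hx
    obtain ⟨u, v, w, hu, hv, hw, rfl⟩ := hU c
    have key : ∀ u : R, (IsUnit u ∨ u = 0) → u • x ∈ G := by
      intro u hu
      rcases hu with ⟨a, rfl⟩ | rfl
      · exact hunit a x hx
      · rw [zero_smul]; exact G.zero_mem
    rw [add_smul, add_smul]
    exact G.add_mem (G.add_mem (key u hu) (key v hv)) (key w hw)
  have htau := h.min μ μ hμ hμ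
  unfold tauA at htau
  rw [hd] at htau
  have hsum : D2 μ μ₁ + D2 μ μ₂ ≤ 2702 * k := by linarith
  have key : ∀ ν : V → ℝ, Law ν → (∀ h ∈ G, ∀ x, ν (x + h) = ν x) →
      ent ν = Real.log (Nat.card G) → 2 * D2 μ ν ≤ 2702 * k →
      entMod μ G ≤ 2702 * k ∧ Real.log (Nat.card G) - ent μ ≤ 2702 * k := by
    intro ν hν hinv hent hdist
    have e1 := entMod_add_log_le hμ hν G hinv
    have e2 := ent_le_entMod hμ G
    have e3 : 0 ≤ entMod μ G := H_nonneg hμ _
    have e4 : D2 μ ν = ent (conv μ ν) - ent μ / 2 - ent ν / 2 := rfl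
    rw [hent] at e4
    constructor <;> linarith
  rcases le_total (D2 μ μ₁) (D2 μ μ₂) with h | h
  · exact key μ₁ hμ₁ hG1 he1 (by linarith)
  · exact key μ₂ hμ₂ hG2 he2 (by linarith)

theorem finite_caseS0 (hU : U3 R) (K : ℝ) (A : Finset V) (hA : A.Nonempty)
    (hK : ∀ a : R, ((A + A.image fun x => a • x).card : ℝ) ≤ K * (A.card : ℝ)) :
    ∃ G : AddSubgroup V, (∀ (c : R), ∀ x ∈ G, c • x ∈ G) ∧ (Nat.card G : ℝ) ≤ K ^ 2702 * A.card ∧
      ∃ c : V ⧸ G, (A.card : ℝ) ≤ K ^ 2702 *
        (A.filter (fun x => (QuotientAddGroup.mk x : V ⧸ G) = c)).card := by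
  have hpos : (0 : ℝ) < A.card := by exact_mod_cast hA.card_pos
  have hK1 : 1 ≤ K := by
    have h1 : (A.card : ℝ) ≤ (A + A.image fun x => (0 : R) • x).card := by
      exact_mod_cast Finset.card_le_card_add_right (hA.image _)
    have h2 := hK 0
    nlinarith
  have hK0 : 0 < K := by linarith
  have hlaw := law_unif hA
  have hent := ent_unif hA
  have hinj : ∀ a : Rˣ, Function.Injective (fun x : V => (a : R) • x) := by
    intro a x z hxz
    have := congrArg (fun t => ((a⁻¹ : Rˣ) : R) • t) hxz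
    simpa [smul_smul] using this
  have hd : ∀ a : Rˣ, D2 (unif A) (dil (a : R) (unif A)) ≤ Real.log K := by
    intro a
    rw [dil_unif]
    exact D2_unif hA (hA.image _) (Finset.card_image_of_injective _ (hinj a)).symm hK0 (hK a)
  have h1 : DA R (unif A) (unif A) ≤ Real.log K := by
    have a1 : DA R (unif A) (unif A) ≤ au R fun _ => Real.log K := by
      unfold DA au
      exact div_le_div_of_nonneg_right (Finset.sum_le_sum fun a _ => hd a) card_u_pos.le
    rwa [auc_const] at a1
  have h2 : D2 (unif A) (unif A) ≤ Real.log K := by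
    have a1 := hd 1
    have a2 : dil ((1 : Rˣ) : R) (unif A) = unif A := by
      unfold dil
      simp only [Units.val_one, one_smul]
      exact push_id' _
    rwa [a2] at a1
  obtain ⟨G, hGs, hG1, hG2⟩ := entropicS hU hlaw h1 h2
  have hGpos : (0 : ℝ) < Nat.card G := by exact_mod_cast Nat.card_pos
  have hpow : Real.log (K ^ 2702) = 2702 * Real.log K := by
    rw [Real.log_pow]; push_cast; ring
  refine ⟨G, hGs, ?_, ?_⟩
  · have h1 : Real.log (Nat.card G) ≤ Real.log (K ^ 2702 * A.card) := by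
      rw [Real.log_mul (by positivity) hpos.ne', hpow]
      rw [hent] at hG2
      linarith
    exact (Real.log_le_log_iff hGpos (by positivity)).1 h1
  · obtain ⟨c, hc⟩ := exists_exp_le (law_push hlaw
      (fun x : V => (QuotientAddGroup.mk x : V ⧸ G)))
    refine ⟨c, ?_⟩
    set A' := A.filter (fun x => (QuotientAddGroup.mk x : V ⧸ G) = c) with hA'
    have hpush : push (unif A) (fun x : V => (QuotientAddGroup.mk x : V ⧸ G)) c =
        A'.card / A.card := by
      unfold push unif
      rw [hA', Finset.card_filter]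
      push_cast
      rw [Finset.sum_div, ← Finset.sum_subset (Finset.subset_univ A)]
      · refine Finset.sum_congr rfl fun x hx => ?_
        rw [if_pos hx]
        split_ifs <;> simp [div_eq_mul_inv]
      · intro x _ hx
        rw [if_neg hx, ite_self]
    have h1 : Real.exp (-(2702 * Real.log K)) ≤ A'.card / A.card := by
      rw [← hpush]
      refine le_trans (Real.exp_le_exp.2 (neg_le_neg hG1)) hc
    rw [Real.exp_neg, ← hpow, Real.exp_log (by positivity), le_div_iff₀ hpos,
      inv_mul_le_iff₀ (by positivity)] at h1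
    exact h1

/-- finite modules: the submodule version -/
theorem finite_caseS [d : DecidableEq V] (hU : U3 R) (K : ℝ) (A : Finset V) (hA : A.Nonempty)
    (hK : ∀ a : R, ((A + A.image fun x => a • x).card : ℝ) ≤ K * (A.card : ℝ)) :
    ∃ (G : Submodule R V) (D : Finset V), (Nat.card G : ℝ) ≤ K ^ 2702 * A.card ∧
      D ⊆ A ∧ (A.card : ℝ) ≤ K ^ 2702 * D.card ∧ ∀ x ∈ D, ∀ y ∈ D, x - y ∈ G := by
  have hd : d = (fun a b => Classical.propDecidable (a = b)) := Subsingleton.elim _ _
  subst hd
  obtain ⟨G, hGs, h1, c, h2⟩ := finite_caseS0 hU K A hA hK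
  refine ⟨⟨G.toAddSubmonoid, fun c x hx => hGs c x hx⟩, _, h1, Finset.filter_subset _ _, h2,
    fun x hx y hy => ?_⟩
  have hx' := (Finset.mem_filter.1 hx).2
  have hy' := (Finset.mem_filter.1 hy).2
  rw [← hy', eq_comm, QuotientAddGroup.eq] at hx'
  have h2 : -y + x = x - y := by abel
  rw [h2] at hx'
  exact hx'

theorem U3_field (F : Type*) [Field F] [Fintype F] : U3 F := by
  intro c
  refine ⟨c, 0, 0, ?_, Or.inr rfl, Or.inr rfl, by simp⟩
  by_cases h : c = 0
  · exact Or.inr h
  · exact Or.inl (isUnit_iff_ne_zero.2 h)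

/-- arbitrary modules over a finite ring -/
theorem moduleS {Γ : Type*} [AddCommGroup Γ] [Module R Γ] (hU : U3 R) (K : ℝ) (A : Finset Γ)
    (hA : A.Nonempty)
    (hK : ∀ a : R, ((A + A.image fun x => a • x).card : ℝ) ≤ K * (A.card : ℝ)) :
    ∃ (G : Submodule R Γ) (T : Finset Γ), Finite G ∧ (Nat.card G : ℝ) ≤ K ^ 2702 * A.card ∧
      (T.card : ℝ) ≤ K ^ 2703 ∧ ∀ a ∈ A, ∃ t ∈ T, a - t ∈ G := by
  have hpos : (0 : ℝ) < A.card := by exact_mod_cast hA.card_pos
  have hK1 : 1 ≤ K := by
    have h1 : (A.card : ℝ) ≤ (A + A.image fun x => (0 : R) • x).card := by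
      exact_mod_cast Finset.card_le_card_add_right (hA.image _)
    have h2 := hK 0
    nlinarith
  have hK0 : 0 < K := by linarith
  set U := Submodule.span R (A : Set Γ) with hUd
  have hfg : Module.Finite R U := Module.Finite.span_of_finite R (Finset.finite_toSet A)
  have hfin : Finite U := Module.finite_of_finite R
  have hft : Fintype U := Fintype.ofFinite U
  set A₁ : Finset U := A.preimage (fun v : U => (v : Γ)) Subtype.val_injective.injOn with hA₁
  have himg : A₁.image (fun v : U => (v : Γ)) = A := by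
    ext a
    simp only [hA₁, Finset.mem_image, Finset.mem_preimage]
    constructor
    · rintro ⟨v, hv, rfl⟩
      exact hv
    · intro ha
      exact ⟨⟨a, Submodule.subset_span ha⟩, ha, rfl⟩
  have hcard : A₁.card = A.card := by
    rw [← himg, Finset.card_image_of_injective _ Subtype.val_injective]
  have hA₁ne : A₁.Nonempty := by
    rw [← Finset.card_pos, hcard]
    exact hA.card_pos
  obtain ⟨G, D, hG, hDA, hDc, hD⟩ := finite_caseS (R := R) hU K A₁ hA₁ne (by
    intro a
    have h1 : ((A₁ + A₁.image fun x => a • x).image (U.subtype)) =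
        A + A.image fun x => a • x := by
      rw [Finset.image_add U.subtype, Finset.image_image]
      congr 1
      rw [← himg, Finset.image_image]
      rfl
    have h2 : (A₁ + A₁.image fun x => a • x).card = (A + A.image fun x => a • x).card := by
      rw [← h1, Finset.card_image_of_injective _ (show Function.Injective U.subtype from
        Subtype.val_injective)]
    rw [h2, hcard]
    exact hK a)
  set D' := D.image (fun v : U => (v : Γ)) with hD'
  have hD'c : D'.card = D.card := Finset.card_image_of_injective _ Subtype.val_injective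
  have hD'A : D' ⊆ A := by
    intro x hx
    obtain ⟨v, hv, rfl⟩ := Finset.mem_image.1 hx
    exact Finset.mem_preimage.1 (hDA hv)
  have hDne : D'.Nonempty := by
    rw [← Finset.card_pos, hD'c]
    by_contra hcon
    have h0 : D.card = 0 := by omega
    rw [h0, hcard] at hDc
    simp at hDc
    rw [hDc] at hA
    exact Finset.not_nonempty_empty hA
  have hcov : ((A + D').card : ℝ) ≤ K ^ 2703 * D'.card := by
    have h1 : ((A + D').card : ℝ) ≤ (A + A.image fun x => (1 : R) • x).card := by
      have : (A.image fun x => (1 : R) • x) = A := by simp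
      rw [this]
      exact_mod_cast Finset.card_le_card (Finset.add_subset_add_left hD'A)
    calc ((A + D').card : ℝ) ≤ K * A.card := h1.trans (hK 1)
      _ ≤ K * (K ^ 2702 * D'.card) := by
          refine mul_le_mul_of_nonneg_left ?_ hK0.le
          rw [hD'c, ← hcard]; exact hDc
      _ = _ := by rw [← mul_assoc, ← pow_succ']
  obtain ⟨F, -, hF, hAF⟩ := Finset.ruzsa_covering_add hDne hcov
  refine ⟨G.map U.subtype, F, ?_, ?_, hF, ?_⟩
  · have : Finite G := inferInstance
    exact Finite.of_surjective (fun g : G => (⟨(g : U), ⟨g.1, g.2, rfl⟩⟩ : G.map U.subtype))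
      (by rintro ⟨x, y, hy, rfl⟩; exact ⟨⟨y, hy⟩, rfl⟩)
  · have h1 : Nat.card (G.map U.subtype) = Nat.card G :=
      (Nat.card_congr (Submodule.equivMapOfInjective U.subtype Subtype.val_injective G).toEquiv).symm
    rw [h1, ← hcard]
    exact hG
  · intro a ha
    obtain ⟨f, hf, d, hd, hfd⟩ := Finset.mem_add.1 (hAF ha)
    obtain ⟨x, hx, y, hy, hxy⟩ := Finset.mem_sub.1 hd
    refine ⟨f, hf, ?_⟩
    have h1 : a - f = x - y := by rw [← hfd, hxy]; abel
    rw [h1]
    obtain ⟨v, hv, rfl⟩ := Finset.mem_image.1 hx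
    obtain ⟨v', hv', rfl⟩ := Finset.mem_image.1 hy
    exact ⟨v - v', hD v hv v' hv', rfl⟩

end Pool.Agent.TH414.UD
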