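import Pool.Agent.TH414.UD.Defs
import Pool.Agent.H137R2.PFR.Final
set_option autoImplicit false

/-! Sums of dilates of a minimiser are near minimal: the part that does not need the growth step. -/

open scoped Classical

namespace Pool.Agent.TH414.UD.C1

open H137.PFR hiding dist
open Pool.Agent.TH404.Tor

variable {R : Type*} [CommRing R] [Fintype R]
variable {V : Type*} [AddCommGroup V] [Fintype V] [Module R V]
variable {η : ℝ} {μ₀ p₁ p₂ : V → ℝ}

/-- dilates compose -/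
theorem dl_dl (a b : R) (x : PL V) : dl a (dl b x) = dl (a * b) x := by
  apply Subtype.ext
  change push (push x.1 (fun v => b • v)) (fun v => a • v) = push x.1 (fun v => (a * b) • v)
  rw [push_push]
  simp only [smul_smul]

/-- dilates are multiplicative -/
theorem dl_mul (a : R) (x y : PL V) : dl a (x * y) = dl a x * dl a y := PL.map_mul _ x y

/-- the entropy of a dilate by a unit -/
theorem dl_unit_e (u : Rˣ) (x : PL V) : (dl (u : R) x).e = x.e := by
  have h1 : (dl (u : R) x).e = H x.1 (fun v : V => (u : R) • v) := rfl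
  have h2 : x.e = H x.1 (fun v : V => v) := (H_id x.1).symm
  rw [h1, h2]
  exact H_eq x.2 (fun v : V => ((u⁻¹ : Rˣ) : R) • v) (fun v : V => (u : R) • v)
    (fun v => by simp [smul_smul]) (fun v => rfl)

/-- averages over the units are invariant under translation -/
theorem au_mul (u v : Rˣ) (f : Rˣ → ℝ) : au R (fun a => f (u * a * v)) = au R f := by
  unfold au
  congr 1
  exact Fintype.sum_equiv ((Equiv.mulLeft u).trans (Equiv.mulRight v)) _ _ (fun a => rfl)

theorem au_const (c : ℝ) : au R (fun _ => c) = c := by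
  unfold au
  have h : (Fintype.card Rˣ : ℝ) ≠ 0 := by
    have : 0 < Fintype.card Rˣ := Fintype.card_pos
    positivity
  rw [Finset.sum_const, Finset.card_univ, nsmul_eq_mul]
  field_simp

theorem au_sub (f g : Rˣ → ℝ) : au R (fun a => f a - g a) = au R f - au R g := by
  unfold au
  rw [Finset.sum_sub_distrib, sub_div]

/-- the averaged doubling, written with bundled laws -/
theorem DA_eq (h1 : Law p₁) (h2 : Law p₂) :
    DA R p₁ p₂ = au R (fun a => (mkL h1 * dl (a : R) (mkL h2)).e) - ent p₁ / 2 - ent p₂ / 2 := by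
  have e1 : DA R p₁ p₂ = au R (fun a : Rˣ => (mkL h1 * dl (a : R) (mkL h2)).e
      - (ent p₁ / 2 + ent p₂ / 2)) := by
    unfold DA
    congr 1
    funext a
    have e2 : ent (dil (a : R) p₂) = ent p₂ := dl_unit_e a (mkL h2)
    unfold D2
    rw [e2]
    have e3 : (mkL h1 * dl (a : R) (mkL h2)).e = ent (conv p₁ (dil (a : R) p₂)) := rfl
    rw [e3]
    ring
  rw [e1, au_sub, au_const]
  ring

/-- the averaged entropy for single dilates -/
theorem au_single (h1 : Law p₁) (h2 : Law p₂) (c₁ c₂ : Rˣ) :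
    au R (fun a => (dl (c₁ : R) (mkL h1) * dl (a : R) (dl (c₂ : R) (mkL h2))).e) =
      DA R p₁ p₂ + ent p₁ / 2 + ent p₂ / 2 := by
  rw [DA_eq h1 h2]
  have e1 : (fun a : Rˣ => (dl (c₁ : R) (mkL h1) * dl (a : R) (dl (c₂ : R) (mkL h2))).e) =
      fun a : Rˣ => (mkL h1 * dl ((c₁⁻¹ * a * c₂ : Rˣ) : R) (mkL h2)).e := by
    funext a
    rw [← dl_unit_e c₁ (mkL h1 * dl ((c₁⁻¹ * a * c₂ : Rˣ) : R) (mkL h2)), dl_mul, dl_dl, dl_dl]
    congr 3
    push_cast
    rw [← mul_assoc, ← mul_assoc, Units.mul_inv, one_mul]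
  rw [e1, au_mul c₁⁻¹ c₂ (fun b : Rˣ => (mkL h1 * dl (b : R) (mkL h2)).e)]
  ring

theorem bs_cons (p : PL V) (c : Rˣ) (l : List Rˣ) : bs p (c :: l) = dl (c : R) p * bs p l := by
  unfold bs
  simp [List.flatMap_cons]

theorem bs_single (p : PL V) (c : Rˣ) : bs p [c] = dl (c : R) p := by
  rw [bs_cons]
  unfold bs
  simp

/-- the induction, the growth step as a hypothesis -/
theorem au_bs (h : MnA R η μ₀ p₁ p₂)
    (hg : ∀ (c₁ c₂ : Rˣ) (b₁ b₂ : PL V),
      au R (fun a => ((dl (c₁ : R) (mkL h.l1) * b₁) *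
        dl (a : R) (dl (c₂ : R) (mkL h.l2) * b₂)).e) ≤
      au R (fun a => (b₁ * dl (a : R) b₂).e) +
      (1 + η) / 2 * (((dl (c₁ : R) (mkL h.l1) * b₁).e - b₁.e)
        + ((dl (c₂ : R) (mkL h.l2) * b₂).e - b₂.e)))
    (l₁ l₂ : List Rˣ) (hl : l₁.length = l₂.length) (hl0 : l₁ ≠ []) :
    au R (fun a => (bs (mkL h.l1) l₁ * dl (a : R) (bs (mkL h.l2) l₂)).e) ≤
      DA R p₁ p₂ + ent p₁ / 2 + ent p₂ / 2 +
      (1 + η) / 2 * (((bs (mkL h.l1) l₁).e - ent p₁) + ((bs (mkL h.l2) l₂).e - ent p₂)) := by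
  induction l₁ generalizing l₂ with
  | nil => exact absurd rfl hl0
  | cons c₁ m₁ ih =>
    cases l₂ with
    | nil => simp at hl
    | cons c₂ m₂ =>
      have hm : m₁.length = m₂.length := by simpa using hl
      by_cases h0 : m₁ = []
      · subst h0
        have h02 : m₂ = [] := List.length_eq_zero_iff.1 (by simpa using hm.symm)
        subst h02
        rw [bs_single, bs_single, au_single, dl_unit_e, dl_unit_e]
        have e1 : (mkL h.l1).e = ent p₁ := rfl
        have e2 : (mkL h.l2).e = ent p₂ := rfl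
        rw [e1, e2]
        linarith
      · have h1 := ih m₂ hm h0
        have h2 := hg c₁ c₂ (bs (mkL h.l1) m₁) (bs (mkL h.l2) m₂)
        rw [bs_cons, bs_cons]
        linarith

theorem DL_bs_of (h : MnA R η μ₀ p₁ p₂)
    (hg : ∀ (c₁ c₂ : Rˣ) (b₁ b₂ : PL V),
      au R (fun a => ((dl (c₁ : R) (mkL h.l1) * b₁) *
        dl (a : R) (dl (c₂ : R) (mkL h.l2) * b₂)).e) ≤
      au R (fun a => (b₁ * dl (a : R) b₂).e) +
      (1 + η) / 2 * (((dl (c₁ : R) (mkL h.l1) * b₁).e - b₁.e)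
        + ((dl (c₂ : R) (mkL h.l2) * b₂).e - b₂.e)))
    (l₁ l₂ : List Rˣ) (hl : l₁.length = l₂.length) (hl0 : l₁ ≠ []) :
    DL R (bs (mkL h.l1) l₁) (bs (mkL h.l2) l₂) ≤ DA R p₁ p₂ +
      η / 2 * (((bs (mkL h.l1) l₁).e - ent p₁) + ((bs (mkL h.l2) l₂).e - ent p₂)) := by
  have h1 := au_bs h hg l₁ l₂ hl hl0
  unfold DL
  linarith

end Pool.Agent.TH414.UD.C1
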