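import Pool.Agent.TH414.UD.Growth
import Pool.Agent.TH414.UD.SumDL0
set_option autoImplicit false

/-! Sums of dilates of a minimiser are near minimal. -/

open scoped Classical

namespace Pool.Agent.TH414.UD

open H137.PFR hiding dist
open Pool.Agent.TH404.Tor

variable {R : Type*} [CommRing R] [Fintype R]
variable {V : Type*} [AddCommGroup V] [Fintype V] [Module R V]
variable {η : ℝ} {μ₀ p₁ p₂ : V → ℝ}

theorem DL_bs (h : MnA R η μ₀ p₁ p₂) (l₁ l₂ : List Rˣ) (hl : l₁.length = l₂.length)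
    (hl0 : l₁ ≠ []) :
    DL R (bs (mkL h.l1) l₁) (bs (mkL h.l2) l₂) ≤ DA R p₁ p₂ +
      η / 2 * (((bs (mkL h.l1) l₁).e - ent p₁) + ((bs (mkL h.l2) l₂).e - ent p₂)) :=
  C1.DL_bs_of h (growthA h) l₁ l₂ hl hl0

end Pool.Agent.TH414.UD
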