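import Pool.Agent.TH414.UD.Defs
set_option autoImplicit false

/-! C2: triangle inequality for averaged distances. -/

open scoped Classical

namespace Pool.Agent.TH414.UD

open H137.PFR hiding dist
open Pool.Agent.TH404.Tor

namespace TriL

variable {R : Type*} [CommRing R]
variable {V : Type*} [AddCommGroup V] [Fintype V] [Module R V]

/-- independent copies: `H(X + X') ≤ H(X + Z) + H(X' - Z) - H(Z)` -/
theorem tri (x x' z : PL V) :
    (x * x').e ≤ (x * z).e + (x' * PL.map (-AddMonoidHom.id V) z).e - z.e := by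
  have hn : Law (prod x.1 x'.1) := law_prod x.2 x'.2
  set W : (V × V) × V → ℝ := prod (prod x.1 x'.1) z.1 with hW
  have hWl : Law W := law_prod hn z.2
  have i0 : ∀ (f : V × V → V) (g : V → V), Ind W (fun q => f q.1) (fun q => g q.2) :=
    fun f g => ind_prod hn z.2 f g
  have pf : ∀ (f : V × V → V), push W (fun q => f q.1) = push (prod x.1 x'.1) f :=
    fun f => push_prod_fst _ z.2 f
  have pg : ∀ (g : V → V), push W (fun q => g q.2) = push z.1 g :=
    fun g => push_prod_snd hn z.1 g
  have n1 : push (prod x.1 x'.1) (fun p => p.1) = x.1 := by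
    rw [push_prod_fst x.1 x'.2 (fun x => x), push_id']
  have n2 : push (prod x.1 x'.1) (fun p => p.2) = x'.1 := by
    rw [push_prod_snd x.2 x'.1 (fun x => x), push_id']
  have s1 := H_submod hWl (fun q : (V × V) × V => q.1.1 + q.2)
    (fun q => (q.1.1, q.1.2)) (fun q => q.1.1 + q.1.2)
  have s2 : H W (fun q : (V × V) × V => (q.1.1 + q.2, (q.1.1, q.1.2), q.1.1 + q.1.2)) =
      x.e + x'.e + z.e := by
    have a1 : H W (fun q : (V × V) × V => (q.1.1 + q.2, (q.1.1, q.1.2), q.1.1 + q.1.2)) =
        H W (fun q => ((q.1.1, q.1.2), q.2)) :=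
      H_eq hWl (fun r => (r.2.1, r.1 - r.2.1.1))
        (fun r => (r.1.1 + r.2, r.1, r.1.1 + r.1.2))
        (fun q => by simp) (fun q => by simp)
    have a2 := H_prod hn z.2 (fun p : V × V => (p.1, p.2)) (fun y : V => y)
    have a4 : H (prod x.1 x'.1) (fun p : V × V => (p.1, p.2)) = x.e + x'.e :=
      H_pair_id x.2 x'.2
    have a5 : H z.1 (fun y : V => y) = z.e := H_id z.1
    rw [a1]
    rw [a4, a5] at a2
    exact a2
  have s3 : H W (fun q : (V × V) × V => q.1.1 + q.1.2) = (x * x').e := by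
    unfold H
    rw [pf (fun p => p.1 + p.2)]
    rfl
  have s4 : H W (fun q : (V × V) × V => (q.1.1 + q.2, q.1.1 + q.1.2)) ≤
      (x * z).e + (x' * PL.map (-AddMonoidHom.id V) z).e := by
    have a1 : H W (fun q : (V × V) × V => (q.1.1 + q.2, q.1.1 + q.1.2)) =
        H W (fun q => (q.1.1 + q.2, q.1.2 + (-AddMonoidHom.id V) q.2)) :=
      H_eq hWl (fun r => (r.1, r.2 - r.1)) (fun r => (r.1, r.2 + r.1))
        (fun q => by
          simp only [AddMonoidHom.neg_apply, AddMonoidHom.id_apply, Prod.mk.injEq, true_and]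
          abel)
        (fun q => by
          simp only [AddMonoidHom.neg_apply, AddMonoidHom.id_apply, Prod.mk.injEq, true_and]
          abel)
    have a2 := H_subadd hWl (fun q : (V × V) × V => q.1.1 + q.2)
      (fun q => q.1.2 + (-AddMonoidHom.id V) q.2)
    have a3 : H W (fun q : (V × V) × V => q.1.1 + q.2) = (x * z).e := by
      have b1 := (i0 (fun p => p.1) (fun y => y)).push_add
      rw [pf (fun p => p.1), pg (fun y => y), n1, push_id'] at b1
      unfold H
      rw [b1]
      rfl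
    have a4 : H W (fun q : (V × V) × V => q.1.2 + (-AddMonoidHom.id V) q.2) =
        (x' * PL.map (-AddMonoidHom.id V) z).e := by
      have b1 := (i0 (fun p => p.2) (fun y => (-AddMonoidHom.id V) y)).push_add
      rw [pf (fun p => p.2), pg (fun y => (-AddMonoidHom.id V) y), n2] at b1
      unfold H
      rw [b1]
      rfl
    rw [a1]
    linarith
  have s5 : H W (fun q : (V × V) × V => ((q.1.1, q.1.2), q.1.1 + q.1.2)) = x.e + x'.e := by
    have a1 : H W (fun q : (V × V) × V => ((q.1.1, q.1.2), q.1.1 + q.1.2)) =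
        H W (fun q => (q.1.1, q.1.2)) :=
      H_eq hWl (fun r => r.1) (fun r => (r, r.1 + r.2)) (fun q => rfl) (fun q => rfl)
    have a3 : H W (fun q : (V × V) × V => (q.1.1, q.1.2)) =
        H (prod x.1 x'.1) (fun p : V × V => (p.1, p.2)) :=
      H_prod_fst hn z.2 (fun p : V × V => (p.1, p.2))
    rw [a1, a3]
    exact H_pair_id x.2 x'.2
  rw [s2, s3, s5] at s1
  linarith

theorem map_dl_neg (a : R) (y : PL V) :
    PL.map (-AddMonoidHom.id V) (dl a y) = dl (-a) y := by
  apply Subtype.ext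
  change push (push y.1 (DistribSMul.toAddMonoidHom V a)) (-AddMonoidHom.id V) =
    push y.1 (DistribSMul.toAddMonoidHom V (-a))
  rw [push_push]
  congr 1
  funext v
  simp

theorem dl_e (a : Rˣ) (y : PL V) : (dl (a : R) y).e = y.e := by
  change H y.1 (DistribSMul.toAddMonoidHom V (a : R)) = ent y.1
  rw [← H_id y.1]
  refine H_eq y.2 (fun v => ((a⁻¹ : Rˣ) : R) • v) (fun v => (a : R) • v) (fun v => ?_)
    (fun v => ?_)
  · simp only [DistribSMul.toAddMonoidHom_apply]
    rw [smul_smul, Units.inv_mul, one_smul]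
  · simp

end TriL

variable {R : Type*} [CommRing R] [Fintype R]
variable {V : Type*} [AddCommGroup V] [Fintype V] [Module R V]

theorem DL_tri (x x' y : PL V) : (x * x').e ≤ (x.e + x'.e) / 2 + DL R x y + DL R x' y := by
  have hc : (0 : ℝ) < Fintype.card Rˣ := by exact_mod_cast Fintype.card_pos
  have h1 : ∀ a : Rˣ, (x * x').e + y.e ≤ (x * dl (a : R) y).e + (x' * dl ((-a : Rˣ) : R) y).e := by
    intro a
    have h2 := TriL.tri x x' (dl (a : R) y)
    rw [TriL.map_dl_neg, TriL.dl_e] at h2
    rw [Units.val_neg]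
    linarith
  have h2 := Finset.sum_le_sum fun (a : Rˣ) (_ : a ∈ Finset.univ) => h1 a
  rw [Finset.sum_const, Finset.card_univ, nsmul_eq_mul, Finset.sum_add_distrib] at h2
  have h3 : ∑ a : Rˣ, (x' * dl ((-a : Rˣ) : R) y).e = ∑ a : Rˣ, (x' * dl (a : R) y).e :=
    Fintype.sum_equiv (Equiv.neg Rˣ) _ _ fun a => rfl
  rw [h3] at h2
  unfold DL au
  have h4 : (x * x').e + y.e ≤ (∑ a : Rˣ, (x * dl (a : R) y).e) / Fintype.card Rˣ +
      (∑ a : Rˣ, (x' * dl (a : R) y).e) / Fintype.card Rˣ := by
    rw [← add_div, le_div_iff₀ hc, mul_comm]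
    exact h2
  linarith

end Pool.Agent.TH414.UD
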