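import Pool.Agent.TH414.UD.SumG0
import Pool.Agent.TH414.UD.Tau
import Pool.Agent.TH414.UD.SumDL
import Pool.Agent.TH414.UD.Tri
set_option autoImplicit false

/-! Logarithmic growth of the entropy of sums. -/

open scoped Classical

namespace Pool.Agent.TH414.UD

open H137.PFR hiding dist
open Pool.Agent.TH404.Tor

variable {Ω γ : Type*} [Fintype Ω] [Fintype γ]
variable {R : Type*} [CommRing R] [Fintype R]
variable {V : Type*} [AddCommGroup V] [Fintype V] [Module R V]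
variable {η : ℝ} {μ₀ p₁ p₂ : V → ℝ}

theorem bs_le (h : MnA R η μ₀ p₁ p₂) (j : ℕ) (l : List Rˣ) (hl : l.length = 2 ^ j) :
    (bs (mkL h.l1) l).e - ent p₁ ≤ 2 * j * (1 + 2 * η) ^ j * DA R p₁ p₂ :=
  bs_le_core (fun μ ν => DA_comm μ ν) (fun _ _ hμ hν => DA_nonneg hμ hν)
    (fun _ _ h => h.symm) (fun _ _ h l₁ l₂ h1 h2 => DL_bs h l₁ l₂ h1 h2)
    (fun x x' y => DL_tri x x' y) j p₁ p₂ h l hl

end Pool.Agent.TH414.UD
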