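import Pool.Agent.TH414.UD.Defs
import Pool.Agent.H137R2.PFR.Final
set_option autoImplicit false
set_option linter.unusedSectionVars false

/-! Logarithmic growth of the entropy of sums: the induction, with its inputs as hypotheses. -/

open scoped Classical

namespace Pool.Agent.TH414.UD

open H137.PFR hiding dist
open Pool.Agent.TH404.Tor

variable {R : Type*} [CommRing R] [Fintype R]
variable {V : Type*} [AddCommGroup V] [Fintype V] [Module R V]
variable {η : ℝ} {μ₀ p₁ p₂ : V → ℝ}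

theorem bs_eq' (P : PL V) (l : List Rˣ) :
    bs P l = (l.map (fun c : Rˣ => dl (c : R) P)).prod := by
  unfold bs
  congr 1
  induction l with
  | nil => rfl
  | cons a l ih =>
    have : (do let x ← (a :: l); pure (x : R) : List R) = (a : R) :: (do let x ← l; pure (x : R)) :=
      rfl
    rw [this, List.map_cons, List.map_cons, ih]

theorem bs_append' (P : PL V) (l₁ l₂ : List Rˣ) : bs P (l₁ ++ l₂) = bs P l₁ * bs P l₂ := by
  rw [bs_eq', bs_eq', bs_eq', List.map_append, List.prod_append]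

theorem bs_single' (P : PL V) (c : Rˣ) : bs P [c] = dl (c : R) P := by
  rw [bs_eq', List.map_singleton, List.prod_singleton]

theorem dl_unit_e' (P : PL V) (c : Rˣ) : (dl (c : R) P).e = P.e := by
  have h1 : H P.1 (fun x => (c : R) • x) = H P.1 (fun x : V => x) :=
    H_eq P.2 (fun x => ((c⁻¹ : Rˣ) : R) • x) (fun x => (c : R) • x)
      (fun x => by rw [smul_smul, Units.inv_mul, one_smul]) (fun x => rfl)
  have h2 : H P.1 (fun x : V => x) = P.e := by
    unfold H PL.e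
    rw [push_id']
  rw [← h2, ← h1]
  rfl

/-- The induction for logarithmic growth. -/
theorem bs_le_core
    (hcomm : ∀ μ ν : V → ℝ, DA R μ ν = DA R ν μ)
    (hnn : ∀ μ ν : V → ℝ, Law μ → Law ν → 0 ≤ DA R μ ν)
    (hsymm : ∀ q₁ q₂ : V → ℝ, MnA R η μ₀ q₁ q₂ → MnA R η μ₀ q₂ q₁)
    (hbs : ∀ (q₁ q₂ : V → ℝ) (h : MnA R η μ₀ q₁ q₂) (l₁ l₂ : List Rˣ), l₁.length = l₂.length →
      l₁ ≠ [] → DL R (bs (mkL h.l1) l₁) (bs (mkL h.l2) l₂) ≤ DA R q₁ q₂ +
        η / 2 * (((bs (mkL h.l1) l₁).e - ent q₁) + ((bs (mkL h.l2) l₂).e - ent q₂)))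
    (htri : ∀ x x' y : PL V, (x * x').e ≤ (x.e + x'.e) / 2 + DL R x y + DL R x' y)
    (j : ℕ) : ∀ (q₁ q₂ : V → ℝ) (h : MnA R η μ₀ q₁ q₂) (l : List Rˣ), l.length = 2 ^ j →
      (bs (mkL h.l1) l).e - ent q₁ ≤ 2 * j * (1 + 2 * η) ^ j * DA R q₁ q₂ := by
  induction j with
  | zero =>
    intro q₁ q₂ h l hl
    rw [pow_zero] at hl
    obtain ⟨c, rfl⟩ := List.length_eq_one_iff.mp hl
    rw [bs_single', dl_unit_e']
    have : (mkL h.l1).e = ent q₁ := rfl
    rw [this]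
    simp
  | succ j ih =>
    intro q₁ q₂ h l hl
    have hη := h.pos
    have hk : 0 ≤ DA R q₁ q₂ := hnn _ _ h.l1 h.l2
    obtain ⟨l₁, l₂, rfl, h1, h2⟩ : ∃ l₁ l₂ : List Rˣ, l = l₁ ++ l₂ ∧ l₁.length = 2 ^ j ∧
        l₂.length = 2 ^ j := by
      refine ⟨l.take (2 ^ j), l.drop (2 ^ j), (List.take_append_drop _ _).symm, ?_, ?_⟩
      · rw [List.length_take, hl, pow_succ]; omega
      · rw [List.length_drop, hl, pow_succ]; omega
    have hpos : 0 < 2 ^ j := by positivity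
    have hl1 : l₁ ≠ [] := by
      intro h0; rw [h0, List.length_nil] at h1; omega
    have hl2 : l₂ ≠ [] := by
      intro h0; rw [h0, List.length_nil] at h2; omega
    rw [bs_append']
    set y : PL V := bs (mkL h.l2) (List.replicate (2 ^ j) (1 : Rˣ)) with hy
    have t := htri (bs (mkL h.l1) l₁) (bs (mkL h.l1) l₂) y
    have b1 := hbs q₁ q₂ h l₁ (List.replicate (2 ^ j) (1 : Rˣ)) (by rw [h1, List.length_replicate])
      hl1
    have b2 := hbs q₁ q₂ h l₂ (List.replicate (2 ^ j) (1 : Rˣ)) (by rw [h2, List.length_replicate])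
      hl2
    have i1 := ih q₁ q₂ h l₁ h1
    have i2 := ih q₁ q₂ h l₂ h2
    have i3 : y.e - ent q₂ ≤ 2 * j * (1 + 2 * η) ^ j * DA R q₁ q₂ := by
      have := ih q₂ q₁ (hsymm q₁ q₂ h) (List.replicate (2 ^ j) (1 : Rˣ)) (by
        rw [List.length_replicate])
      rw [hcomm q₂ q₁] at this
      exact this
    rw [← hy] at b1 b2
    set g : ℝ := 2 * j * (1 + 2 * η) ^ j * DA R q₁ q₂ with hg
    set k : ℝ := DA R q₁ q₂ with hkdef
    have m1 : η / 2 * (((bs (mkL h.l1) l₁).e - ent q₁) + (y.e - ent q₂)) ≤ η / 2 * (g + g) :=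
      mul_le_mul_of_nonneg_left (add_le_add i1 i3) (by linarith)
    have m2 : η / 2 * (((bs (mkL h.l1) l₂).e - ent q₁) + (y.e - ent q₂)) ≤ η / 2 * (g + g) :=
      mul_le_mul_of_nonneg_left (add_le_add i2 i3) (by linarith)
    have h3 : (bs (mkL h.l1) l₁ * bs (mkL h.l1) l₂).e - ent q₁ ≤ (1 + 2 * η) * g + 2 * k := by
      linarith
    have h4 : (1 : ℝ) ≤ (1 + 2 * η) ^ (j + 1) := one_le_pow₀ (by linarith)
    have h5 : k ≤ (1 + 2 * η) ^ (j + 1) * k := by nlinarith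
    have h6 : (1 + 2 * η) * g = 2 * j * ((1 + 2 * η) ^ (j + 1) * k) := by
      rw [hg, pow_succ]; ring
    push_cast
    calc (bs (mkL h.l1) l₁ * bs (mkL h.l1) l₂).e - ent q₁ ≤ (1 + 2 * η) * g + 2 * k := h3
      _ ≤ 2 * j * ((1 + 2 * η) ^ (j + 1) * k) + 2 * ((1 + 2 * η) ^ (j + 1) * k) := by
          rw [h6]; linarith
      _ = 2 * ((j : ℝ) + 1) * (1 + 2 * η) ^ (j + 1) * k := by ring

end Pool.Agent.TH414.UD
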