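import Pool.Agent.TH414.UD.Defs

set_option autoImplicit false

/-! General coefficients from unit coefficients. -/

open scoped Classical

namespace Pool.Agent.TH414.UD

open H137.PFR hiding dist
open Pool.Agent.TH404.Tor

variable {Ω γ : Type*} [Fintype Ω] [Fintype γ]
variable {R : Type*} [CommRing R] [Fintype R]
variable {V : Type*} [AddCommGroup V] [Fintype V] [Module R V]
variable {η : ℝ} {μ₀ p₁ p₂ : V → ℝ}

namespace SumLAux

omit [Fintype R] in
theorem dl_one (P : PL V) : dl (1 : R) P = P := by
  apply Subtype.ext
  change push P.1 (fun x => (1 : R) • x) = P.1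
  simp only [one_smul]
  exact push_id' P.1

omit [Fintype R] in
theorem bs_cons (P : PL V) (a : Rˣ) (l : List Rˣ) : bs P (a :: l) = dl (a : R) P * bs P l := by
  unfold bs
  simp

omit [Fintype R] in
theorem bs_append (P : PL V) (l l' : List Rˣ) : bs P (l ++ l') = bs P l * bs P l' := by
  unfold bs
  simp

omit [Fintype R] in
theorem bs_replicate (P : PL V) (n : ℕ) : bs P (List.replicate n (1 : Rˣ)) = P ^ n := by
  induction n with
  | zero => unfold bs; simp
  | succ n ih =>
    rw [List.replicate_succ, bs_cons, ih, Units.val_one, dl_one, pow_succ']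

omit [Fintype R] in
/-- a linear form with coefficients zero or unit is a product of dilates -/
theorem lw_unit {p : V → ℝ} (hp : Law p) {n : ℕ} (u : Fin n → R)
    (hu : ∀ i, IsUnit (u i) ∨ u i = 0) (s : Finset (Fin n)) :
    ∃ l : List Rˣ, l.length ≤ s.card ∧
      lw (law_pl fun _ : Fin n => hp) (fun x : Fin n → V => ∑ i ∈ s, u i • x i) =
        bs (mkL hp) l := by
  have hpl : Law (pl fun _ : Fin n => p) := law_pl fun _ : Fin n => hp
  induction s using Finset.induction_on with
  | empty =>
    refine ⟨[], by simp, ?_⟩
    simp only [Finset.sum_empty]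
    exact lw_zero _
  | insert j s hj ih =>
    obtain ⟨l, hl, hs⟩ := ih
    rcases hu j with h | h
    · obtain ⟨a, ha⟩ := h
      refine ⟨a :: l, ?_, ?_⟩
      · rw [Finset.card_insert_of_notMem hj, List.length_cons]
        omega
      · rw [bs_cons, ← hs]
        apply Subtype.ext
        change push (pl fun _ : Fin n => p) (fun x : Fin n → V => ∑ i ∈ insert j s, u i • x i) =
          conv (push p (fun x => (a : R) • x))
            (push (pl fun _ : Fin n => p) (fun x => ∑ i ∈ s, u i • x i))
        have hI : Ind (pl fun _ : Fin n => p) (fun x : Fin n → V => (a : R) • x j)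
            (fun x => ∑ i ∈ s, u i • x i) := by
          refine ind_pl (fun _ : Fin n => hp) {j} _ _ ?_ ?_
          · intro x y hxy
            have := hxy j rfl
            simp only [this]
          · intro x y hxy
            refine Finset.sum_congr rfl fun i hi => ?_
            rw [hxy i ?_]
            intro hc
            exact hj (hc ▸ hi)
        have h1 := hI.push_add
        have h2 : push (pl fun _ : Fin n => p) (fun x : Fin n → V => (a : R) • x j) =
            push p (fun x => (a : R) • x) := by
          have h3 := push_coord (p := fun _ : Fin n => p) (fun _ : Fin n => hp) j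
          have h4 := push_push (pl fun _ : Fin n => p) (fun x : Fin n → V => x j)
            (fun x : V => (a : R) • x)
          rw [h3] at h4
          exact h4.symm
        rw [h2] at h1
        rw [← h1]
        congr 1
        funext x
        rw [Finset.sum_insert hj, ha]
    · refine ⟨l, ?_, ?_⟩
      · rw [Finset.card_insert_of_notMem hj]
        omega
      · rw [← hs]
        congr 1
        funext x
        rw [Finset.sum_insert hj, h, zero_smul, zero_add]

end SumLAux

open SumLAux

theorem L_le {p : V → ℝ} (hp : Law p) (hU : U3 R) (j n : ℕ) (hn : n ≤ 2 ^ j) {B : ℝ}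
    (hB : ∀ l : List Rˣ, l.length = 2 ^ (j + 2) → (bs (mkL hp) l).e - ent p ≤ B)
    (c : Fin n → R) :
    (mkL hp * lw (law_pl fun _ : Fin n => hp) (L c)).e ≤ ent p + 4 * B := by
  set P : PL V := mkL hp with hP
  have hPe : P.e = ent p := rfl
  have hN : 1 ≤ 2 ^ j := Nat.one_le_two_pow
  set N : ℕ := 2 ^ j with hNd
  have hN4 : 2 ^ (j + 2) = 4 * N := by rw [hNd, pow_add]; ring
  -- cost of a form with coefficients zero or unit
  have key : ∀ u : Fin n → R, (∀ i, IsUnit (u i) ∨ u i = 0) →
      (P ^ N * lw (law_pl fun _ : Fin n => hp) (L u)).e - (P ^ N).e ≤ B := by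
    intro u hu
    obtain ⟨l, hl, hs⟩ := lw_unit hp u hu Finset.univ
    rw [Finset.card_univ, Fintype.card_fin] at hl
    have hs' : lw (law_pl fun _ : Fin n => hp) (L u) = bs P l := hs
    rw [hs']
    have h1 := hB (List.replicate (4 * N - l.length) 1 ++ l) (by
      rw [List.length_append, List.length_replicate, hN4]
      omega)
    rw [bs_append, bs_replicate] at h1
    have h2 : P ^ (4 * N - l.length) * bs P l = P ^ N * bs P l * P ^ (4 * N - l.length - N) := by
      rw [mul_assoc, mul_comm (bs P l), ← mul_assoc, ← pow_add]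
      congr 2
      omega
    rw [h2] at h1
    have h3 := PL.e_le_mul (P ^ N * bs P l) (P ^ (4 * N - l.length - N))
    have h4 : P.e ≤ (P ^ N).e := by
      have h5 := PL.e_le_mul P (P ^ (N - 1))
      rw [← pow_succ'] at h5
      rwa [Nat.sub_add_cancel hN] at h5
    linarith
  -- decomposition of the coefficients
  choose u v w hu hv hw hc using fun i => hU (c i)
  have e1 : L c = fun x : Fin n → V => L u x + (L v x + L w x) := by
    funext x
    rw [← L_add, ← L_add]
    congr 1
    funext i
    rw [Pi.add_apply, Pi.add_apply, hc i]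
    ring
  have k1 := key u hu
  have k2 := key v hv
  have k3 := key w hw
  have c1 := cost_add (P ^ N) (P ^ N) (law_pl fun _ : Fin n => hp) (L v : (Fin n → V) → V) (L w)
  have c2 := cost_add (P ^ N) (P ^ N * P ^ N) (law_pl fun _ : Fin n => hp)
    (L u : (Fin n → V) → V) (fun x => L v x + L w x)
  rw [← e1] at c2
  have h6 : (P ^ N * (P ^ N * P ^ N)).e ≤ ent p + B := by
    have h7 := hB (List.replicate (4 * N) 1) (by rw [List.length_replicate, hN4])
    rw [bs_replicate] at h7
    have h8 := PL.e_le_mul (P ^ N * (P ^ N * P ^ N)) (P ^ N)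
    have h9 : P ^ N * (P ^ N * P ^ N) * P ^ N = P ^ (4 * N) := by
      rw [← pow_add, ← pow_add, ← pow_add]
      congr 1
      ring
    rw [h9] at h8
    linarith
  have h10 : (P * lw (law_pl fun _ : Fin n => hp) (L c)).e ≤
      (P ^ N * (P ^ N * P ^ N) * lw (law_pl fun _ : Fin n => hp) (L c)).e := by
    have h11 := PL.e_le_mul (P * lw (law_pl fun _ : Fin n => hp) (L c))
      (P ^ (N - 1) * (P ^ N * P ^ N))
    have h12 : P * lw (law_pl fun _ : Fin n => hp) (L c) * (P ^ (N - 1) * (P ^ N * P ^ N)) =
        P ^ N * (P ^ N * P ^ N) * lw (law_pl fun _ : Fin n => hp) (L c) := by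
      have h13 : P ^ N = P * P ^ (N - 1) := by
        rw [← pow_succ', Nat.sub_add_cancel hN]
      conv_rhs => rw [h13]
      rw [h13]
      ac_rfl
    rw [h12] at h11
    exact h11
  linarith

end Pool.Agent.TH414.UD
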