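import Pool.Agent.TH414.UD.Defs
set_option autoImplicit false

/-! Every residue is a sum of three elements that are zero or a unit. -/

open scoped Classical

namespace Pool.Agent.TH414.UD

open H137.PFR hiding dist
open Pool.Agent.TH404.Tor

theorem exists_coprime_pair (m c : ℕ) (hm : m ≠ 0) (h2 : 2 ∣ m → 2 ∣ c) :
    ∃ u : ℕ, u.Coprime m ∧ (c + u * (m - 1)).Coprime m := by
  classical
  obtain ⟨u, hu⟩ := Nat.chineseRemainderOfFinset (fun p => if p ∣ c then 1 else 2 * c) (fun p => p)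
    m.primeFactors (fun p hp => (Nat.prime_of_mem_primeFactors hp).ne_zero)
    (fun p hp q hq hpq => (Nat.coprime_primes (Nat.prime_of_mem_primeFactors hp)
      (Nat.prime_of_mem_primeFactors hq)).2 hpq)
  have key : ∀ p : ℕ, p.Prime → p ∣ m → ¬ p ∣ u ∧ ¬ p ∣ c + u * (m - 1) := by
    intro p hp hpm
    have h := hu p (Nat.mem_primeFactors.2 ⟨hp, hpm, hm⟩)
    have hZ : ((p : ℤ) ∣ (m : ℤ)) := by exact_mod_cast hpm
    by_cases hc : p ∣ c
    · simp only [if_pos hc] at h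
      have h1 : ((p : ℤ) ∣ 1 - (u : ℤ)) := by
        have := (Nat.modEq_iff_dvd.1 h); simpa using this
      have hn : ¬ ((p : ℤ) ∣ 1) := by
        intro h'
        have : p ∣ 1 := by exact_mod_cast h'
        exact hp.one_lt.ne' (Nat.dvd_one.1 this)
      have hu' : ¬ ((p : ℤ) ∣ (u : ℤ)) := fun h' => hn (by
        have := dvd_add h1 h'; simpa using this)
      refine ⟨fun h' => hu' (by exact_mod_cast h'), fun h' => ?_⟩
      have h3 : ((p : ℤ) ∣ ((c + u * (m - 1) : ℕ) : ℤ)) := by exact_mod_cast h'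
      have h4 : ((c + u * (m - 1) : ℕ) : ℤ) = c + u * (m - 1) := by
        push_cast [Nat.cast_sub (Nat.one_le_iff_ne_zero.2 hm)]; ring
      rw [h4] at h3
      have hcZ : ((p : ℤ) ∣ (c : ℤ)) := by exact_mod_cast hc
      have : (u : ℤ) = c + u * m - (c + u * (m - 1)) := by ring
      exact hu' (this ▸ dvd_sub (dvd_add hcZ (hZ.mul_left _)) h3)
    · simp only [if_neg hc] at h
      have h1 : ((p : ℤ) ∣ ((2 * c : ℕ) : ℤ) - (u : ℤ)) := Nat.modEq_iff_dvd.1 h
      have hcZ : ¬ ((p : ℤ) ∣ (c : ℤ)) := fun h' => hc (by exact_mod_cast h')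
      refine ⟨fun h' => ?_, fun h' => ?_⟩
      · have h3 : ((p : ℤ) ∣ (u : ℤ)) := by exact_mod_cast h'
        have h4 : ((p : ℤ) ∣ ((2 * c : ℕ) : ℤ)) := by
          have := dvd_add h1 h3; simpa using this
        have h5 : p ∣ 2 * c := by exact_mod_cast h4
        rcases hp.dvd_mul.1 h5 with h6 | h6
        · have : p = 2 := (Nat.prime_dvd_prime_iff_eq hp Nat.prime_two).1 h6
          subst this
          exact hc (h2 hpm)
        · exact hc h6
      · have h3 : ((p : ℤ) ∣ ((c + u * (m - 1) : ℕ) : ℤ)) := by exact_mod_cast h'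
        have h4 : ((c + u * (m - 1) : ℕ) : ℤ) = c + u * (m - 1) := by
          push_cast [Nat.cast_sub (Nat.one_le_iff_ne_zero.2 hm)]; ring
        rw [h4] at h3
        have : (c : ℤ) = (((2 * c : ℕ) : ℤ) - u) + u * m - (c + u * (m - 1)) := by
          push_cast; ring
        exact hcZ (this ▸ dvd_sub (dvd_add h1 (hZ.mul_left _)) h3)
  refine ⟨u, ?_, ?_⟩
  · exact Nat.Coprime.symm (Nat.coprime_of_dvd fun p hp h1 h2 => (key p hp h1).1 h2)
  · exact Nat.Coprime.symm (Nat.coprime_of_dvd fun p hp h1 h2 => (key p hp h1).2 h2)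

theorem two_units (m : ℕ) [NeZero m] (c : ℕ) (h2 : 2 ∣ m → 2 ∣ c) :
    ∃ u v : ZMod m, IsUnit u ∧ IsUnit v ∧ (c : ZMod m) = u + v := by
  obtain ⟨u, h, h'⟩ := exists_coprime_pair m c (NeZero.ne m) h2
  refine ⟨(u : ZMod m), ((c + u * (m - 1) : ℕ) : ZMod m), (ZMod.isUnit_iff_coprime _ _).2 h,
    (ZMod.isUnit_iff_coprime _ _).2 h', ?_⟩
  have h1 : (1 : ℕ) ≤ m := Nat.one_le_iff_ne_zero.2 (NeZero.ne m)
  push_cast [Nat.cast_sub h1]
  simp

theorem U3_zmod (m : ℕ) [NeZero m] : U3 (ZMod m) := by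
  intro c
  by_cases h : 2 ∣ m ∧ ¬ 2 ∣ c.val
  · have hodd : 2 ∣ (c.val + 1) := by omega
    obtain ⟨u, v, hu, hv, he⟩ := two_units m (c.val + 1) (fun _ => hodd)
    refine ⟨u, v, -1, Or.inl hu, Or.inl hv, Or.inl isUnit_one.neg, ?_⟩
    rw [← he]; push_cast; simp
  · obtain ⟨u, v, hu, hv, he⟩ := two_units m c.val (fun h1 => by
      by_contra h3; exact h ⟨h1, h3⟩)
    refine ⟨u, v, 0, Or.inl hu, Or.inl hv, Or.inr rfl, ?_⟩
    rw [← he]; simp

end Pool.Agent.TH414.UD
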