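import Pool.Agent.TH414.UD.SumG
import Pool.Agent.TH414.UD.SumL
import Pool.Agent.TH414.UD.Bsg
import Pool.Agent.TH414.UD.Flags
import Pool.Agent.TH414.UD.Conc
import Pool.Agent.TH414.UD.Zm
set_option autoImplicit false

/-! A minimiser has zero averaged doubling. -/

open scoped Classical

namespace Pool.Agent.TH414.UD

open H137.PFR hiding dist
open Pool.Agent.TH404.Tor

variable {R : Type*} [CommRing R] [Fintype R]
variable {V : Type*} [AddCommGroup V] [Fintype V] [Module R V]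
variable {η : ℝ} {μ₀ p₁ p₂ : V → ℝ}

theorem card_gl_pos (n : ℕ) : (0 : ℝ) < Fintype.card (Matrix (Fin n) (Fin n) R)ˣ := by
  exact_mod_cast Fintype.card_pos

theorem card_u_pos : (0 : ℝ) < Fintype.card Rˣ := by
  exact_mod_cast Fintype.card_pos

theorem agc_const (n : ℕ) (c : ℝ) : (ag R n fun _ => c) = c := by
  unfold ag
  rw [Finset.sum_const, Finset.card_univ, nsmul_eq_mul, mul_div_cancel_left₀]
  exact (card_gl_pos n).ne'

theorem auc_const (c : ℝ) : (au R fun _ => c) = c := by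
  unfold au
  rw [Finset.sum_const, Finset.card_univ, nsmul_eq_mul, mul_div_cancel_left₀]
  exact card_u_pos.ne'

theorem agc_mono {n : ℕ} {f g : Matrix (Fin n) (Fin n) R → ℝ}
    (h : ∀ x : (Matrix (Fin n) (Fin n) R)ˣ, f x.1 ≤ g x.1) : ag R n f ≤ ag R n g := by
  unfold ag
  exact div_le_div_of_nonneg_right (Finset.sum_le_sum fun x _ => h x) (card_gl_pos n).le

/-- the pencil inequality averaged over the matrices -/
theorem pencil (h : MnA R η μ₀ p₁ p₂) {n : ℕ} {B : ℝ}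
    (hB : ∀ c : Fin n → R, (mkL h.l1 * lw (law_pl fun _ : Fin n => h.l1) (L c)).e ≤
      ent p₁ + 4 * B) (r : ℕ) (hr : r + 1 < n) :
    tauA R η μ₀ p₁ p₂ ≤ 3 * (2 * FF R n p₁ (r + 1) - FF R n p₁ r - FF R n p₁ (r + 2)) +
      2 * η * (ent (conv μ₀ p₁) + 4 * B - ent μ₀ / 2
        - (FF R n p₁ (r + 2) - FF R n p₁ (r + 1)) / 2) := by
  have hp := h.l1
  have hw : Law (pl fun _ : Fin n => p₁) := law_pl fun _ => hp
  set w := pl fun _ : Fin n => p₁ with hwd
  have h1 : ∀ g : Matrix (Fin n) (Fin n) R, tauA R η μ₀ p₁ p₂ ≤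
      au R (fun a => 2 * H w (fun x => (L (g ⟨r, by omega⟩) x, rows g r x))
          + 2 * H w (fun x => (L (g ⟨r + 1, hr⟩) x, rows g r x))
          + H w (fun x => (L (g ⟨r, by omega⟩) x + (-(a : R)) • L (g ⟨r + 1, hr⟩) x, rows g r x))
          + H w (fun x => (L (g ⟨r, by omega⟩) x + (1 : R) • L (g ⟨r + 1, hr⟩) x, rows g r x))
          - 3 * H w (fun x => (L (g ⟨r, by omega⟩) x, L (g ⟨r + 1, hr⟩) x, rows g r x))
          - 3 * H w (rows g r))
      + 2 * η * (ent (conv μ₀ p₁) + 4 * B - ent μ₀ / 2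
          - (H w (fun x => (L (g ⟨r, by omega⟩) x, L (g ⟨r + 1, hr⟩) x, rows g r x))
            - H w (fun x => (L (g ⟨r + 1, hr⟩) x, rows g r x))) / 2) := by
    intro g
    have a1 := bsgA h.l0 h.pos h.min hw (fun x : Fin n → V => L (g ⟨r, by omega⟩) x)
      (fun x => L (g ⟨r + 1, hr⟩) x) (rows g r)
    have a2 : H (prod μ₀ w) (fun p : V × (Fin n → V) => p.1 + L (g ⟨r, by omega⟩) p.2) ≤
        ent (conv μ₀ p₁) + 4 * B := by
      have b1 : H (prod μ₀ w) (fun p : V × (Fin n → V) => p.1 + L (g ⟨r, by omega⟩) p.2) =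
          (mkL h.l0 * lw hw (L (g ⟨r, by omega⟩))).e := by
        have c1 := (ind_prod h.l0 hw (fun x : V => x)
          (fun x : Fin n → V => L (g ⟨r, by omega⟩) x)).push_add
        unfold H
        rw [c1, push_prod_fst μ₀ hw (fun x => x), push_prod_snd h.l0 w, push_id']
        rfl
      have b2 : (mkL h.l0 * lw hw (L (g ⟨r, by omega⟩))).e ≤
          (mkL h.l1 * mkL h.l0 * lw hw (L (g ⟨r, by omega⟩))).e := by
        rw [mul_assoc]
        exact PL.e_le_mul' _ _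
      have b3 := cost_mono (mkL h.l1) (mkL h.l0) (lw hw (L (g ⟨r, by omega⟩)))
      have b4 := hB (g ⟨r, by omega⟩)
      have b5 : (mkL h.l1).e = ent p₁ := rfl
      have b6 : (mkL h.l1 * mkL h.l0).e = ent (conv μ₀ p₁) := by
        rw [mul_comm]; rfl
      rw [b1]
      linarith
    have a3 := mul_le_mul_of_nonneg_left a2 (by linarith [h.pos] : 0 ≤ 2 * η)
    have e1 : ∀ a : Rˣ, (fun x : Fin n → V => (L (g ⟨r, by omega⟩) x - (a : R) •
        L (g ⟨r + 1, hr⟩) x, rows g r x)) = fun x => (L (g ⟨r, by omega⟩) x + (-(a : R)) •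
        L (g ⟨r + 1, hr⟩) x, rows g r x) := by
      intro a
      funext x
      rw [neg_smul, sub_eq_add_neg]
    simp only [e1] at a1
    simp only [one_smul]
    nlinarith [a1, a3]
  have q1 : (ag R n fun g => H w (fun x => (L (g ⟨r, by omega⟩) x, rows g r x))) =
      FF R n p₁ (r + 1) := by
    unfold FF
    congr 1
    funext g
    exact H_rows_succ hp g r (by omega)
  obtain ⟨q2, -, q4⟩ := FF_pencil (R := R) (n := n) hp r hr (0 : R)
  have q3 := fun a : R => (FF_pencil (R := R) (n := n) hp r hr a).2.1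
  have q0 : (ag R n fun g => H w (rows g r)) = FF R n p₁ r := rfl
  have hN := (card_gl_pos (R := R) n).ne'
  have hM := (card_u_pos (R := R)).ne'
  set N : ℝ := (Fintype.card (Matrix (Fin n) (Fin n) R)ˣ : ℝ) with hNd
  have qq : ∀ (f : Matrix (Fin n) (Fin n) R → ℝ) (c : ℝ), ag R n f = c →
      ∑ g : (Matrix (Fin n) (Fin n) R)ˣ, f g.1 = c * N := by
    intro f c hf
    unfold ag at hf
    rwa [div_eq_iff hN] at hf
  have r0 := qq _ _ q0
  have r1 := qq _ _ q1
  have r2 := qq _ _ q2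
  have r3 := fun a : R => qq _ _ (q3 a)
  have r4 := qq _ _ q4
  have s1 := Finset.sum_le_sum (s := (Finset.univ : Finset (Matrix (Fin n) (Fin n) R)ˣ))
    fun x _ => h1 x.1
  rw [Finset.sum_const, Finset.card_univ, nsmul_eq_mul, Finset.sum_add_distrib] at s1
  have s2 : ∑ x : (Matrix (Fin n) (Fin n) R)ˣ, au R (fun a =>
      2 * H w (fun y => (L (x.1 ⟨r, by omega⟩) y, rows x.1 r y))
          + 2 * H w (fun y => (L (x.1 ⟨r + 1, hr⟩) y, rows x.1 r y))
          + H w (fun y => (L (x.1 ⟨r, by omega⟩) y + (-(a : R)) • L (x.1 ⟨r + 1, hr⟩) y,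
              rows x.1 r y))
          + H w (fun y => (L (x.1 ⟨r, by omega⟩) y + (1 : R) • L (x.1 ⟨r + 1, hr⟩) y,
              rows x.1 r y))
          - 3 * H w (fun y => (L (x.1 ⟨r, by omega⟩) y, L (x.1 ⟨r + 1, hr⟩) y, rows x.1 r y))
          - 3 * H w (rows x.1 r)) =
      (3 * (2 * FF R n p₁ (r + 1) - FF R n p₁ r - FF R n p₁ (r + 2))) * N := by
    unfold au
    rw [← Finset.sum_div, Finset.sum_comm, div_eq_iff hM]
    have t1 : ∀ a : Rˣ, ∑ x : (Matrix (Fin n) (Fin n) R)ˣ,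
      (2 * H w (fun y => (L (x.1 ⟨r, by omega⟩) y, rows x.1 r y))
          + 2 * H w (fun y => (L (x.1 ⟨r + 1, hr⟩) y, rows x.1 r y))
          + H w (fun y => (L (x.1 ⟨r, by omega⟩) y + (-(a : R)) • L (x.1 ⟨r + 1, hr⟩) y,
              rows x.1 r y))
          + H w (fun y => (L (x.1 ⟨r, by omega⟩) y + (1 : R) • L (x.1 ⟨r + 1, hr⟩) y,
              rows x.1 r y))
          - 3 * H w (fun y => (L (x.1 ⟨r, by omega⟩) y, L (x.1 ⟨r + 1, hr⟩) y, rows x.1 r y))
          - 3 * H w (rows x.1 r)) =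
      (3 * (2 * FF R n p₁ (r + 1) - FF R n p₁ r - FF R n p₁ (r + 2))) * N := by
      intro a
      simp only [Finset.sum_add_distrib, Finset.sum_sub_distrib, ← Finset.mul_sum]
      have u3 := r3 (-(a : R))
      have u1 := r3 1
      rw [r0, r1, r2, u3, u1, r4]
      ring
    rw [Finset.sum_congr rfl fun a _ => t1 a, Finset.sum_const, Finset.card_univ, nsmul_eq_mul]
    ring
  rw [s2] at s1
  have s3 : ∑ x : (Matrix (Fin n) (Fin n) R)ˣ, 2 * η * (ent (conv μ₀ p₁) + 4 * B - ent μ₀ / 2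
          - (H w (fun y => (L (x.1 ⟨r, by omega⟩) y, L (x.1 ⟨r + 1, hr⟩) y, rows x.1 r y))
            - H w (fun y => (L (x.1 ⟨r + 1, hr⟩) y, rows x.1 r y))) / 2) =
      (2 * η * (ent (conv μ₀ p₁) + 4 * B - ent μ₀ / 2
        - (FF R n p₁ (r + 2) - FF R n p₁ (r + 1)) / 2)) * N := by
    rw [← Finset.mul_sum]
    simp only [Finset.sum_sub_distrib, ← Finset.sum_div, Finset.sum_const, Finset.card_univ,
      nsmul_eq_mul]
    rw [r2, r4]
    ring
  rw [s3, ← add_mul, mul_comm] at s1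
  exact le_of_mul_le_mul_right s1 (card_gl_pos n)

/-- entropy of the first row -/
theorem FF_one {n : ℕ} (hn : 0 < n) (hp : Law p₁) {B : ℝ}
    (hB : ∀ c : Fin n → R, (mkL hp * lw (law_pl fun _ : Fin n => hp) (L c)).e ≤
      ent p₁ + 4 * B) : FF R n p₁ 1 ≤ ent p₁ + 4 * B := by
  have hw : Law (pl fun _ : Fin n => p₁) := law_pl fun _ => hp
  have h1 : ∀ g : Matrix (Fin n) (Fin n) R, H (pl fun _ : Fin n => p₁) (rows g 1) ≤
      ent p₁ + 4 * B := by
    intro g
    have a1 := hB (g ⟨0, hn⟩)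
    have a2 : (lw hw (L (g ⟨0, hn⟩))).e ≤ (mkL hp * lw hw (L (g ⟨0, hn⟩))).e :=
      PL.e_le_mul' _ _
    have a3 : (lw hw (L (g ⟨0, hn⟩))).e = H (pl fun _ : Fin n => p₁) (L (g ⟨0, hn⟩)) := rfl
    have a4 : H (pl fun _ : Fin n => p₁) (rows g 1) =
        H (pl fun _ : Fin n => p₁) (L (g ⟨0, hn⟩) : (Fin n → V) → V) := by
      refine H_eq hw (fun q => q ⟨0, hn⟩) (fun q i => if i.val < 1 then q else 0)
        (fun x => ?_) (fun x => ?_)
      · rfl
      · funext i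
        unfold rows
        split_ifs with hi
        · have : i = ⟨0, hn⟩ := Fin.ext (by simpa using hi)
          rw [this]
        · rfl
    rw [a4, ← a3]
    exact a2.trans a1
  have h2 := agc_mono (R := R) (n := n) (f := fun g => H (pl fun _ : Fin n => p₁) (rows g 1))
    (g := fun _ => ent p₁ + 4 * B) (fun x => h1 x.1)
  rw [agc_const] at h2
  exact h2

theorem half (hU : U3 R) (h : MnA R (1 / 2700) μ₀ p₁ p₂) :
    DA R p₁ p₂ ≤ 93 / 100 * DA R p₁ p₂ + 1 / 2700 * (D2 μ₀ p₁ - D2 μ₀ p₂) := by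
  have hk : 0 ≤ DA R p₁ p₂ := DA_nonneg h.l1 h.l2
  set k := DA R p₁ p₂ with hkd
  have hB0 : ∀ l : List Rˣ, l.length = 2 ^ (13 + 2) → (bs (mkL h.l1) l).e - ent p₁ ≤ 90 * k := by
    intro l hl
    have a1 := bs_le h (13 + 2) l hl
    have a3 : 2 * ((13 + 2 : ℕ) : ℝ) * (1 + 2 * (1 / 2700)) ^ (13 + 2) * DA R p₁ p₂ ≤
        90 * k := by
      rw [← hkd]
      have : (2 * ((13 + 2 : ℕ) : ℝ) * (1 + 2 * (1 / 2700)) ^ (13 + 2) : ℝ) ≤ 90 := by
        push_cast
        norm_num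
      exact mul_le_mul_of_nonneg_right this hk
    exact a1.trans a3
  have hB := L_le (R := R) h.l1 hU 13 8192 (by norm_num) hB0
  obtain ⟨c1, c2⟩ := conc (F := FF R 8192 p₁) (M := 4096) (by norm_num) (h := ent p₁)
    (G := 4 * (90 * k)) (FF_zero h.l1) (fun r hr => FF_concave h.l1 r (by omega))
    (FF_one (by norm_num) h.l1 hB) (by
      have := FF_last (R := R) (n := 8192) h.l1
      rw [show (2 * 4096 : ℕ) = 8192 by norm_num, this]
      push_cast
      linarith)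
  have h1 : ∀ r ∈ Finset.range 4096, tauA R (1 / 2700) μ₀ p₁ p₂ ≤
      3 * (2 * FF R 8192 p₁ (r + 1) - FF R 8192 p₁ r - FF R 8192 p₁ (r + 2)) +
      2 * (1 / 2700) * (D2 μ₀ p₁ + 6 * (90 * k)) := by
    intro r hr
    have a1 := pencil h hB r (by have := Finset.mem_range.1 hr; omega)
    have a2 := c2 r (Finset.mem_range.1 hr)
    have a3 : D2 μ₀ p₁ = ent (conv μ₀ p₁) - ent μ₀ / 2 - ent p₁ / 2 := rfl
    rw [a3]
    linarith
  have h2 := Finset.sum_le_sum h1
  rw [Finset.sum_const, Finset.card_range, nsmul_eq_mul, Finset.sum_add_distrib,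
    ← Finset.mul_sum, Finset.sum_const, Finset.card_range, nsmul_eq_mul] at h2
  have h3 : tauA R (1 / 2700) μ₀ p₁ p₂ = k + 1 / 2700 * (D2 μ₀ p₁ + D2 μ₀ p₂) := rfl
  rw [h3] at h2
  push_cast at h2
  linarith

theorem zeroA (hU : U3 R) (h : MnA R (1 / 2700) μ₀ p₁ p₂) : DA R p₁ p₂ = 0 := by
  have h1 := half hU h
  have h2 := half hU h.symm
  rw [DA_comm p₂ p₁] at h2
  have h3 := DA_nonneg (R := R) h.l1 h.l2
  linarith

end Pool.Agent.TH414.UD
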